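import Pool.Agent.Q78.BetaT.Gaps

namespace Q78.BetaT

open Set

/-- forward orbit of `0` -/
noncomputable def xs (α β : ℝ) : ℕ → ℝ
  | 0 => 0
  | n + 1 => if xs α β n < cc α β then FL α β (xs α β n) else FR α β (xs α β n)

/-- forward orbit of `1` (from the left) -/
noncomputable def ys (α β : ℝ) : ℕ → ℝ
  | 0 => 1
  | n + 1 => if ys α β n ≤ cc α β then FL α β (ys α β n) else FR α β (ys α β n)

/-- two points joined inside `W` -/
def Conn (W : Set ℝ) (x y : ℝ) : Prop := uIcc x y ⊆ W

theorem Conn.symm {W : Set ℝ} {x y : ℝ} (h : Conn W x y) : Conn W y x := by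
  unfold Conn; rw [uIcc_comm]; exact h

theorem Conn.trans {W : Set ℝ} {x y z : ℝ} (h : Conn W x y) (h' : Conn W y z) : Conn W x z :=
  (uIcc_subset_uIcc_union_uIcc (a := x) (b := y) (c := z)).trans (union_subset h h')

theorem Conn.left_mem {W : Set ℝ} {x y : ℝ} (h : Conn W x y) : x ∈ W := h left_mem_uIcc

theorem Conn.right_mem {W : Set ℝ} {x y : ℝ} (h : Conn W x y) : y ∈ W := h right_mem_uIcc

theorem conn_self {W : Set ℝ} {x : ℝ} (h : x ∈ W) : Conn W x x := by
  unfold Conn; simpa using h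

theorem Conn.of_mem {W : Set ℝ} {x y z : ℝ} (h : Conn W x y) (hz : z ∈ uIcc x y) : Conn W z y :=
  (uIcc_subset_uIcc hz right_mem_uIcc).trans h

theorem conn_of_Icc {W : Set ℝ} {x y : ℝ} (hxy : x ≤ y) (h : Icc x y ⊆ W) : Conn W x y := by
  unfold Conn; rwa [uIcc_of_le hxy]

theorem Conn.Icc_subset {W : Set ℝ} {x y : ℝ} (h : Conn W x y) (hxy : x ≤ y) : Icc x y ⊆ W := by
  unfold Conn at h; rwa [uIcc_of_le hxy] at h

theorem Conn.gap_free {W : Set ℝ} {x y : ℝ} (h : Conn W x y) {a : ℝ} (ha : a ∈ E W) (h1 : x ≤ a)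
    (h2 : a < y) : False := by
  have hg := re_spec ha
  have hlt := hg.lt
  have h3 := h.Icc_subset (h1.trans h2.le)
  have h4 : min ((a + re W a) / 2) y ∈ W := by
    apply h3
    refine ⟨?_, min_le_right _ _⟩
    apply le_min <;> linarith
  have h5 : a < min ((a + re W a) / 2) y := lt_min (by linarith) h2
  have h6 : min ((a + re W a) / 2) y < re W a := lt_of_le_of_lt (min_le_left _ _) (by linarith)
  rcases hg.sep _ h4 with h7 | h7 <;> linarith

theorem isClosed_conn {W : Set ℝ} (hW : IsClosed W) (z : ℝ) : IsClosed {x | Conn W x z} := by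
  apply isClosed_of_closure_subset
  intro x hx y hy
  by_cases hyx : y = x
  · subst hyx
    refine hW.closure_subset_iff.2 ?_ hx
    intro w hw
    exact hw.left_mem
  · have hd : 0 < |y - x| := abs_pos.2 (sub_ne_zero.2 hyx)
    obtain ⟨x', hx', hd'⟩ := Metric.mem_closure_iff.1 hx _ hd
    rw [Real.dist_eq] at hd'
    apply hx'
    rcases le_total x z with h | h
    · rw [uIcc_of_le h] at hy
      have h1 : x < y := lt_of_le_of_ne hy.1 (Ne.symm hyx)
      rw [abs_of_pos (sub_pos.2 h1)] at hd'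
      have h2 : x' ≤ y := by
        have := (abs_lt.1 hd').1
        linarith
      rw [uIcc_of_le (h2.trans hy.2)]
      exact ⟨h2, hy.2⟩
    · rw [uIcc_of_ge h] at hy
      have h1 : y < x := lt_of_le_of_ne hy.2 hyx
      rw [abs_of_neg (sub_neg.2 h1)] at hd'
      have h2 : y ≤ x' := by
        have := (abs_lt.1 hd').2
        linarith
      rw [uIcc_of_ge (hy.1.trans h2)]
      exact ⟨hy.1, h2⟩

section

variable {α β : ℝ} {W : Set ℝ}

theorem conn_FL (hW : Inv α β W) (hp : Par α β) {x y : ℝ} (h : Conn W x y)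
    (hx : x ≤ cc α β) (hy : y ≤ cc α β) : Conn W (FL α β x) (FL α β y) := by
  have hβ := hp.hβ
  have hβ0 : 0 < β := by linarith
  wlog hxy : x ≤ y generalizing x y
  · exact (this h.symm hy hx (not_le.1 hxy).le).symm
  apply conn_of_Icc
  · unfold FL; nlinarith
  · intro z hz
    have h1 := h.Icc_subset hxy
    have h2 : FL α β ((z - α) / β) = z := by unfold FL; field_simp; ring
    rw [← h2]
    unfold FL at hz
    have h3 : x ≤ (z - α) / β := by rw [le_div_iff₀ hβ0]; linarith [hz.1]
    have h4 : (z - α) / β ≤ y := by rw [div_le_iff₀ hβ0]; linarith [hz.2]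
    exact hW.left _ (h1 ⟨h3, h4⟩) (h4.trans hy)

theorem conn_FR (hW : Inv α β W) (hp : Par α β) {x y : ℝ} (h : Conn W x y)
    (hx : cc α β ≤ x) (hy : cc α β ≤ y) : Conn W (FR α β x) (FR α β y) := by
  have hβ := hp.hβ
  have hβ0 : 0 < β := by linarith
  wlog hxy : x ≤ y generalizing x y
  · exact (this h.symm hy hx (not_le.1 hxy).le).symm
  apply conn_of_Icc
  · unfold FR; nlinarith
  · intro z hz
    have h1 := h.Icc_subset hxy
    have h2 : FR α β ((z + 1 - α) / β) = z := by unfold FR; field_simp; ring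
    rw [← h2]
    unfold FR at hz
    have h3 : x ≤ (z + 1 - α) / β := by rw [le_div_iff₀ hβ0]; linarith [hz.1]
    have h4 : (z + 1 - α) / β ≤ y := by rw [div_le_iff₀ hβ0]; linarith [hz.2]
    exact hW.right _ (h1 ⟨h3, h4⟩) (hx.trans h3)

/-- growth along the orbit of `0` -/
theorem grow_xs (hW : Inv α β W) (hp : Par α β) {r : ℝ} (hr : 0 ≤ r)
    (hrW : Icc (cc α β) (cc α β + r) ⊆ W) (n : ℕ)
    (hn : ∀ j < n, ¬ Conn W (xs α β j) (cc α β)) :
    Icc (xs α β n) (xs α β n + β ^ (n + 1) * r) ⊆ W := by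
  have hβ := hp.hβ
  have hβ0 : 0 < β := by linarith
  induction n with
  | zero =>
    have h1 : Conn W (cc α β) (cc α β + r) := conn_of_Icc (by linarith) hrW
    have h2 := conn_FR hW hp h1 le_rfl (by linarith)
    rw [hp.FR_c] at h2
    have h3 : FR α β (cc α β + r) = β * r := by
      have := hp.FR_c
      unfold FR at this ⊢
      linarith
    rw [h3] at h2
    have := h2.Icc_subset (by positivity)
    simpa [xs] using this
  | succ n ih =>
    have ih' := ih (fun j hj => hn j (by omega))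
    have hnc := hn n (by omega)
    set δ := β ^ (n + 1) * r with hδ
    have hδ0 : 0 ≤ δ := by positivity
    have hconn : Conn W (xs α β n) (xs α β n + δ) := conn_of_Icc (by linarith) ih'
    have hc : cc α β ∉ Icc (xs α β n) (xs α β n + δ) := by
      intro hc
      apply hnc
      exact conn_of_Icc hc.1 ((Icc_subset_Icc le_rfl hc.2).trans ih')
    have hpow : β ^ (n + 1 + 1) * r = β * δ := by rw [hδ, pow_succ]; ring
    rw [hpow]
    by_cases hlt : xs α β n < cc α β
    · have h1 : xs α β n + δ < cc α β := by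
        by_contra h
        exact hc ⟨hlt.le, not_lt.1 h⟩
      have h2 := conn_FL hW hp hconn hlt.le h1.le
      have h3 : xs α β (n + 1) = FL α β (xs α β n) := by rw [xs, if_pos hlt]
      have h4 : FL α β (xs α β n + δ) = FL α β (xs α β n) + β * δ := by unfold FL; ring
      rw [h4] at h2
      rw [h3]
      exact h2.Icc_subset (by nlinarith)
    · have hle : cc α β ≤ xs α β n := not_lt.1 hlt
      have h2 := conn_FR hW hp hconn hle (by linarith)
      have h3 : xs α β (n + 1) = FR α β (xs α β n) := by rw [xs, if_neg hlt]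
      have h4 : FR α β (xs α β n + δ) = FR α β (xs α β n) + β * δ := by unfold FR; ring
      rw [h4] at h2
      rw [h3]
      exact h2.Icc_subset (by nlinarith)

/-- growth along the orbit of `1` -/
theorem grow_ys (hW : Inv α β W) (hp : Par α β) {r : ℝ} (hr : 0 ≤ r)
    (hrW : Icc (cc α β - r) (cc α β) ⊆ W) (n : ℕ)
    (hn : ∀ j < n, ¬ Conn W (ys α β j) (cc α β)) :
    Icc (ys α β n - β ^ (n + 1) * r) (ys α β n) ⊆ W := by
  have hβ := hp.hβ
  have hβ0 : 0 < β := by linarith
  induction n with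
  | zero =>
    have h1 : Conn W (cc α β - r) (cc α β) := conn_of_Icc (by linarith) hrW
    have h2 := conn_FL hW hp h1 (by linarith) le_rfl
    rw [hp.FL_c] at h2
    have h3 : FL α β (cc α β - r) = 1 - β * r := by
      have := hp.FL_c
      unfold FL at this ⊢
      linarith
    rw [h3] at h2
    have := h2.Icc_subset (by nlinarith)
    simpa [ys] using this
  | succ n ih =>
    have ih' := ih (fun j hj => hn j (by omega))
    have hnc := hn n (by omega)
    set δ := β ^ (n + 1) * r with hδ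
    have hδ0 : 0 ≤ δ := by positivity
    have hconn : Conn W (ys α β n - δ) (ys α β n) := conn_of_Icc (by linarith) ih'
    have hc : cc α β ∉ Icc (ys α β n - δ) (ys α β n) := by
      intro hc
      apply hnc
      exact (conn_of_Icc hc.2 ((Icc_subset_Icc hc.1 le_rfl).trans ih')).symm
    have hpow : β ^ (n + 1 + 1) * r = β * δ := by rw [hδ, pow_succ]; ring
    rw [hpow]
    by_cases hlt : ys α β n ≤ cc α β
    · have h2 := conn_FL hW hp hconn (by linarith) hlt
      have h3 : ys α β (n + 1) = FL α β (ys α β n) := by rw [ys, if_pos hlt]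
      have h4 : FL α β (ys α β n - δ) = FL α β (ys α β n) - β * δ := by unfold FL; ring
      rw [h4] at h2
      rw [h3]
      exact h2.Icc_subset (by nlinarith)
    · have hle : cc α β < ys α β n := not_le.1 hlt
      have h1 : cc α β < ys α β n - δ := by
        by_contra h
        exact hc ⟨not_lt.1 h, hle.le⟩
      have h2 := conn_FR hW hp hconn h1.le hle.le
      have h3 : ys α β (n + 1) = FR α β (ys α β n) := by rw [ys, if_neg hlt]
      have h4 : FR α β (ys α β n - δ) = FR α β (ys α β n) - β * δ := by unfold FR; ring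
      rw [h4] at h2
      rw [h3]
      exact h2.Icc_subset (by nlinarith)

theorem pow_unbounded {β r : ℝ} (hβ : 1 < β) (hr : 0 < r) : ∃ n : ℕ, 1 < β ^ (n + 1) * r := by
  obtain ⟨n, hn⟩ := pow_unbounded_of_one_lt (1 / r) hβ
  refine ⟨n, ?_⟩
  rw [div_lt_iff₀ hr] at hn
  have h1 : β ^ n ≤ β ^ (n + 1) := pow_le_pow_right₀ hβ.le (Nat.le_succ n)
  nlinarith

theorem exists_hit_xs (hW : Inv α β W) (hp : Par α β) : ∃ n, Conn W (xs α β n) (cc α β) := by
  by_contra hcon
  have hcon' : ∀ n, ¬ Conn W (xs α β n) (cc α β) := fun n h => hcon ⟨n, h⟩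
  obtain ⟨ε, hε, h1⟩ := hW.nhd
  obtain ⟨n, hn⟩ := pow_unbounded hp.hβ hε
  have h2 := grow_xs hW hp hε.le ((Icc_subset_Icc (by linarith) le_rfl).trans h1) n
    (fun j _ => hcon' j)
  have h3 : xs α β n ∈ W := h2 ⟨le_rfl, by linarith⟩
  have h4 : xs α β n + β ^ (n + 1) * ε ∈ W := h2 ⟨by linarith, le_rfl⟩
  have h5 := (hW.sub h3).1
  have h6 := (hW.sub h4).2
  linarith

theorem exists_hit_ys (hW : Inv α β W) (hp : Par α β) : ∃ n, Conn W (ys α β n) (cc α β) := by
  by_contra hcon
  have hcon' : ∀ n, ¬ Conn W (ys α β n) (cc α β) := fun n h => hcon ⟨n, h⟩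
  obtain ⟨ε, hε, h1⟩ := hW.nhd
  obtain ⟨n, hn⟩ := pow_unbounded hp.hβ hε
  have h2 := grow_ys hW hp hε.le ((Icc_subset_Icc le_rfl (by linarith)).trans h1) n
    (fun j _ => hcon' j)
  have h3 : ys α β n ∈ W := h2 ⟨by linarith, le_rfl⟩
  have h4 : ys α β n - β ^ (n + 1) * ε ∈ W := h2 ⟨le_rfl, by linarith⟩
  have h5 := (hW.sub h3).2
  have h6 := (hW.sub h4).1
  linarith

open Classical in
/-- first hitting time for `0` -/
noncomputable def M0 (α β : ℝ) (W : Set ℝ) : ℕ :=
  if h : ∃ n, Conn W (xs α β n) (cc α β) then Nat.find h else 0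

open Classical in
/-- first hitting time for `1` -/
noncomputable def M1 (α β : ℝ) (W : Set ℝ) : ℕ :=
  if h : ∃ n, Conn W (ys α β n) (cc α β) then Nat.find h else 0

theorem M0_spec (hW : Inv α β W) (hp : Par α β) :
    Conn W (xs α β (M0 α β W)) (cc α β) ∧ ∀ j < M0 α β W, ¬ Conn W (xs α β j) (cc α β) := by
  classical
  have h := exists_hit_xs hW hp
  unfold M0
  rw [dif_pos h]
  exact ⟨Nat.find_spec h, fun j hj => Nat.find_min h hj⟩

theorem M1_spec (hW : Inv α β W) (hp : Par α β) :
    Conn W (ys α β (M1 α β W)) (cc α β) ∧ ∀ j < M1 α β W, ¬ Conn W (ys α β j) (cc α β) := by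
  classical
  have h := exists_hit_ys hW hp
  unfold M1
  rw [dif_pos h]
  exact ⟨Nat.find_spec h, fun j hj => Nat.find_min h hj⟩

/-- points of the orbits stay in `W` up to the hitting time -/
theorem xs_mem (hW : Inv α β W) (hp : Par α β) (n : ℕ) (hn : n ≤ M0 α β W) : xs α β n ∈ W := by
  have := grow_xs hW hp le_rfl (by simpa using hW.c_mem) n
    (fun j hj => (M0_spec hW hp).2 j (by omega))
  exact this ⟨le_rfl, by simp⟩

theorem ys_mem (hW : Inv α β W) (hp : Par α β) (n : ℕ) (hn : n ≤ M1 α β W) : ys α β n ∈ W := by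
  have := grow_ys hW hp le_rfl (by simpa using hW.c_mem) n
    (fun j hj => (M1_spec hW hp).2 j (by omega))
  exact this ⟨by simp, le_rfl⟩

/-- the part of `W` reached from `c` -/
def core (α β : ℝ) (W : Set ℝ) : Set ℝ :=
  {x | ∃ i ≤ M0 α β W, Conn W x (xs α β i)} ∪ {x | ∃ j ≤ M1 α β W, Conn W x (ys α β j)}

theorem core_subset : core α β W ⊆ W := by
  rintro x (⟨i, -, h⟩ | ⟨j, -, h⟩)
  · exact h.left_mem
  · exact h.left_mem

theorem core_of_conn {x y : ℝ} (h : Conn W x y) (hy : y ∈ core α β W) : x ∈ core α β W := by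
  rcases hy with ⟨i, hi, h'⟩ | ⟨j, hj, h'⟩
  · exact Or.inl ⟨i, hi, h.trans h'⟩
  · exact Or.inr ⟨j, hj, h.trans h'⟩

theorem core_zero (hW : Inv α β W) : (0 : ℝ) ∈ core α β W :=
  Or.inl ⟨0, Nat.zero_le _, conn_self hW.zero⟩

theorem core_one (hW : Inv α β W) : (1 : ℝ) ∈ core α β W :=
  Or.inr ⟨0, Nat.zero_le _, conn_self hW.one⟩

theorem core_c (hW : Inv α β W) (hp : Par α β) : cc α β ∈ core α β W :=
  Or.inl ⟨M0 α β W, le_rfl, (M0_spec hW hp).1.symm⟩

/-- a point joined to a point which is not joined to `c` lies on the same side of `c`. -/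
theorem same_side {x z : ℝ} (h : Conn W x z) (hz : ¬ Conn W z (cc α β)) :
    (x < cc α β ∧ z < cc α β) ∨ (cc α β < x ∧ cc α β < z) := by
  have hc : cc α β ∉ uIcc x z := fun hc => hz (h.of_mem hc).symm
  rcases le_total x z with h1 | h1
  · rw [uIcc_of_le h1] at hc
    rcases lt_or_ge z (cc α β) with h2 | h2
    · exact Or.inl ⟨h1.trans_lt h2, h2⟩
    · rcases lt_or_ge (cc α β) x with h3 | h3
      · exact Or.inr ⟨h3, h3.trans_le h1⟩
      · exact absurd ⟨h3, h2⟩ hc
  · rw [uIcc_of_ge h1] at hc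
    rcases lt_or_ge x (cc α β) with h2 | h2
    · exact Or.inl ⟨h2, h1.trans_lt h2⟩
    · rcases lt_or_ge (cc α β) z with h3 | h3
      · exact Or.inr ⟨h3.trans_le h1, h3⟩
      · exact absurd ⟨h3, h2⟩ hc

theorem core_inv (hW : Inv α β W) (hp : Par α β) : Inv α β (core α β W) := by
  obtain ⟨hM0, hM0'⟩ := M0_spec hW hp
  obtain ⟨hM1, hM1'⟩ := M1_spec hW hp
  refine ⟨?_, core_subset.trans hW.sub, core_zero hW, core_one hW, ?_, ?_, ?_⟩
  · unfold core
    apply IsClosed.union
    · have : {x | ∃ i ≤ M0 α β W, Conn W x (xs α β i)} =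
          ⋃ i ∈ {i : ℕ | i ≤ M0 α β W}, {x | Conn W x (xs α β i)} := by
        ext x; simp
      rw [this]
      exact (Set.finite_le_nat _).isClosed_biUnion (fun i _ => isClosed_conn hW.closed _)
    · have : {x | ∃ i ≤ M1 α β W, Conn W x (ys α β i)} =
          ⋃ i ∈ {i : ℕ | i ≤ M1 α β W}, {x | Conn W x (ys α β i)} := by
        ext x; simp
      rw [this]
      exact (Set.finite_le_nat _).isClosed_biUnion (fun i _ => isClosed_conn hW.closed _)
  · obtain ⟨ε, hε, h1⟩ := hW.nhd
    refine ⟨ε, hε, fun x hx => ?_⟩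
    apply core_of_conn _ (core_c hW hp)
    rcases le_total x (cc α β) with h2 | h2
    · exact conn_of_Icc h2 ((Icc_subset_Icc hx.1 (by linarith)).trans h1)
    · exact (conn_of_Icc h2 ((Icc_subset_Icc (by linarith) hx.2).trans h1)).symm
  · rintro x hx hxc
    -- common treatment
    have hfin : Conn W x (cc α β) → FL α β x ∈ core α β W := by
      intro h
      have h2 := conn_FL hW hp h hxc le_rfl
      rw [hp.FL_c] at h2
      exact core_of_conn h2 (core_one hW)
    rcases hx with ⟨i, hi, h⟩ | ⟨j, hj, h⟩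
    · rcases Nat.lt_or_ge i (M0 α β W) with h1 | h1
      · rcases same_side h (hM0' i h1) with ⟨h2, h3⟩ | ⟨h2, h3⟩
        · have h4 := conn_FL hW hp h h2.le h3.le
          refine Or.inl ⟨i + 1, h1, ?_⟩
          rw [xs, if_pos h3]
          exact h4
        · exact absurd hxc (not_le.2 h2)
      · have : i = M0 α β W := le_antisymm hi h1
        subst this
        exact hfin (h.trans hM0)
    · rcases Nat.lt_or_ge j (M1 α β W) with h1 | h1
      · rcases same_side h (hM1' j h1) with ⟨h2, h3⟩ | ⟨h2, h3⟩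
        · have h4 := conn_FL hW hp h h2.le h3.le
          refine Or.inr ⟨j + 1, h1, ?_⟩
          rw [ys, if_pos h3.le]
          exact h4
        · exact absurd hxc (not_le.2 h2)
      · have : j = M1 α β W := le_antisymm hj h1
        subst this
        exact hfin (h.trans hM1)
  · rintro x hx hxc
    have hfin : Conn W x (cc α β) → FR α β x ∈ core α β W := by
      intro h
      have h2 := conn_FR hW hp h hxc le_rfl
      rw [hp.FR_c] at h2
      exact core_of_conn h2 (core_zero hW)
    rcases hx with ⟨i, hi, h⟩ | ⟨j, hj, h⟩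
    · rcases Nat.lt_or_ge i (M0 α β W) with h1 | h1
      · rcases same_side h (hM0' i h1) with ⟨h2, h3⟩ | ⟨h2, h3⟩
        · exact absurd hxc (not_le.2 h2)
        · have h4 := conn_FR hW hp h h2.le h3.le
          refine Or.inl ⟨i + 1, h1, ?_⟩
          rw [xs, if_neg (not_lt.2 h3.le)]
          exact h4
      · have : i = M0 α β W := le_antisymm hi h1
        subst this
        exact hfin (h.trans hM0)
    · rcases Nat.lt_or_ge j (M1 α β W) with h1 | h1
      · rcases same_side h (hM1' j h1) with ⟨h2, h3⟩ | ⟨h2, h3⟩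
        · exact absurd hxc (not_le.2 h2)
        · have h4 := conn_FR hW hp h h2.le h3.le
          refine Or.inr ⟨j + 1, h1, ?_⟩
          rw [ys, if_neg (not_le.2 h3)]
          exact h4
      · have : j = M1 α β W := le_antisymm hj h1
        subst this
        exact hfin (h.trans hM1)

/-- a left end of a gap of the core is the largest point of its component -/
theorem core_gap_max {a b z : ℝ} (hg : IsGap (core α β W) a b)
    (hz : Conn W a z) {x : ℝ} (hx : Conn W x z) : x ≤ a := by
  by_contra hcon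
  have hax : a < x := not_le.1 hcon
  have h1 : Conn W a x := hz.trans hx.symm
  have h2 := h1.Icc_subset hax.le
  have hlt := hg.lt
  have h3 : min x ((a + b) / 2) ∈ core α β W := by
    apply core_of_conn _ hg.left
    apply Conn.symm
    apply conn_of_Icc
    · apply le_min hax.le; linarith
    · exact (Icc_subset_Icc le_rfl (min_le_left _ _)).trans h2
  have h4 : a < min x ((a + b) / 2) := lt_min hax (by linarith)
  have h5 : min x ((a + b) / 2) < b := lt_of_le_of_lt (min_le_right _ _) (by linarith)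
  rcases hg.sep _ h3 with h6 | h6 <;> linarith

theorem core_E_finite (hW : Inv α β W) (hp : Par α β) : (E (core α β W)).Finite := by
  have h : E (core α β W) ⊆
      ((fun i => sSup {x | Conn W x (xs α β i)}) '' {i | i ≤ M0 α β W}) ∪
      ((fun i => sSup {x | Conn W x (ys α β i)}) '' {i | i ≤ M1 α β W}) := by
    rintro a ⟨b, hg⟩
    rcases hg.left with ⟨i, hi, h⟩ | ⟨j, hj, h⟩
    · left
      refine ⟨i, hi, ?_⟩
      have : IsGreatest {x | Conn W x (xs α β i)} a :=
        ⟨h, fun x hx => core_gap_max hg h hx⟩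
      exact this.csSup_eq
    · right
      refine ⟨j, hj, ?_⟩
      have : IsGreatest {x | Conn W x (ys α β j)} a :=
        ⟨h, fun x hx => core_gap_max hg h hx⟩
      exact this.csSup_eq
  exact (((Set.finite_le_nat _).image _).union ((Set.finite_le_nat _).image _)).subset h

theorem E_nonempty_of_ne (hW : Inv α β W) (hne : ∃ x ∈ Icc (0 : ℝ) 1, x ∉ W) :
    (E W).Nonempty := by
  obtain ⟨x, hx, hxW⟩ := hne
  obtain ⟨a, b, hab, -, -⟩ := hW.exists_gap hxW hx.1 hx.2
  exact ⟨a, hab.mem_E⟩

/-- existence of a minimal set -/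
theorem exists_min (hp : Par α β) (hW : Inv α β W) (hne : ∃ x ∈ Icc (0 : ℝ) 1, x ∉ W) :
    ∃ W', MinSet α β W' := by
  classical
  have hne' : ∃ x ∈ Icc (0 : ℝ) 1, x ∉ core α β W := by
    obtain ⟨x, hx, hxW⟩ := hne
    exact ⟨x, hx, fun h => hxW (core_subset h)⟩
  have hex : ∃ n, ∃ W', Inv α β W' ∧ (E W').Finite ∧ (E W').Nonempty ∧ (E W').ncard = n :=
    ⟨_, core α β W, core_inv hW hp, core_E_finite hW hp,
      E_nonempty_of_ne (core_inv hW hp) hne', rfl⟩
  obtain ⟨W', h1, h2, h3, h4⟩ := Nat.find_spec hex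
  refine ⟨W', h1, h2, h3, fun W'' h5 h6 h7 => ?_⟩
  rw [h4]
  exact Nat.find_min' hex ⟨W'', h5, h6, h7, rfl⟩

/-- next left end of a gap at or after `x` -/
theorem exists_next (hfin : (E W).Finite) {x : ℝ} (h : ∃ a ∈ E W, x ≤ a) :
    ∃ a ∈ E W, x ≤ a ∧ ∀ a' ∈ E W, x ≤ a' → a ≤ a' := by
  have h1 : ({a | a ∈ E W ∧ x ≤ a} : Set ℝ).Finite := hfin.subset (fun a ha => ha.1)
  have h2 : ({a | a ∈ E W ∧ x ≤ a} : Set ℝ).Nonempty := by
    obtain ⟨a, ha, hx⟩ := h
    exact ⟨a, ha, hx⟩
  obtain ⟨a, ha, hmin⟩ := Set.exists_min_image _ id h1 h2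
  exact ⟨a, ha.1, ha.2, fun a' ha' hx' => hmin a' ⟨ha', hx'⟩⟩

/-- last left end of a gap before `x` -/
theorem exists_prev (hfin : (E W).Finite) {x : ℝ} (h : ∃ a ∈ E W, a < x) :
    ∃ a ∈ E W, a < x ∧ ∀ a' ∈ E W, a' < x → a' ≤ a := by
  have h1 : ({a | a ∈ E W ∧ a < x} : Set ℝ).Finite := hfin.subset (fun a ha => ha.1)
  have h2 : ({a | a ∈ E W ∧ a < x} : Set ℝ).Nonempty := by
    obtain ⟨a, ha, hx⟩ := h
    exact ⟨a, ha, hx⟩
  obtain ⟨a, ha, hmax⟩ := Set.exists_max_image _ id h1 h2
  exact ⟨a, ha.1, ha.2, fun a' ha' hx' => hmax a' ⟨ha', hx'⟩⟩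

theorem MinSet.core_eq (hp : Par α β) (h : MinSet α β W) : core α β W = W := by
  have hsub : E (core α β W) ⊆ E W := by
    rintro a ⟨b, hg⟩
    have haW : a ∈ W := core_subset hg.left
    by_contra haE
    have hlt := hg.lt
    have hb1 : b ≤ 1 := (h.inv.sub (core_subset hg.right)).2
    -- a right neighbourhood of `a` is in `W`
    have hex : ∃ z, a < z ∧ Conn W a z := by
      by_cases hn : ∃ a' ∈ E W, a ≤ a'
      · obtain ⟨a', ha', h1, h2⟩ := exists_next h.fin hn
        have h3 : a < a' := lt_of_le_of_ne h1 (fun he => haE (he ▸ ha'))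
        refine ⟨a', h3, conn_of_Icc h1 ?_⟩
        apply h.inv.Icc_subset haW (re_spec ha').left
        intro a'' ha'' h4 h5
        exact absurd (h2 a'' ha'' h4) (not_le.2 h5)
      · refine ⟨1, by linarith, conn_of_Icc (by linarith) ?_⟩
        apply h.inv.Icc_subset haW h.inv.one
        intro a'' ha'' h4 _
        exact hn ⟨a'', ha'', h4⟩
    obtain ⟨z, haz, hconn⟩ := hex
    rcases hg.left with ⟨i, hi, h'⟩ | ⟨j, hj, h'⟩
    · exact absurd (core_gap_max hg h' (hconn.symm.trans h')) (not_le.2 haz)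
    · exact absurd (core_gap_max hg h' (hconn.symm.trans h')) (not_le.2 haz)
  have hne : (E (core α β W)).Nonempty := by
    apply E_nonempty_of_ne (core_inv h.inv hp)
    obtain ⟨a, ha⟩ := h.ne
    have hg := re_spec ha
    have hlt := hg.lt
    refine ⟨(a + re W a) / 2, ⟨?_, ?_⟩, ?_⟩
    · have := (h.inv.sub hg.left).1
      linarith
    · have := (h.inv.sub hg.right).2
      linarith
    · intro hmem
      rcases hg.sep _ (core_subset hmem) with h1 | h1 <;> linarith
  have hmin := h.least _ (core_inv h.inv hp) (core_E_finite h.inv hp) hne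
  have heq : E (core α β W) = E W := Set.eq_of_subset_of_ncard_le hsub hmin h.fin
  apply subset_antisymm core_subset
  intro x hx
  by_cases hn : ∃ a' ∈ E W, x ≤ a'
  · obtain ⟨a', ha', h1, h2⟩ := exists_next h.fin hn
    have h3 : Conn W x a' := by
      apply conn_of_Icc h1
      apply h.inv.Icc_subset hx (re_spec ha').left
      intro a'' ha'' h4 h5
      exact absurd (h2 a'' ha'' h4) (not_le.2 h5)
    apply core_of_conn h3
    rw [← heq] at ha'
    exact (re_spec ha').left
  · have h3 : Conn W x 1 := by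
      apply conn_of_Icc (h.inv.sub hx).2
      apply h.inv.Icc_subset hx h.inv.one
      intro a'' ha'' h4 _
      exact hn ⟨a'', ha'', h4⟩
    exact core_of_conn h3 (core_one h.inv)

/-- components are nondegenerate: the right end of a gap is not the left end of a gap. -/
theorem MinSet.re_notMem (hp : Par α β) (h : MinSet α β W) {a : ℝ} (ha : a ∈ E W) : re W a ∉ E W := by
  intro hb
  have hg := re_spec ha
  have hg' := re_spec hb
  set b := re W a with hbdef
  have hbW : b ∈ core α β W := by rw [h.core_eq hp]; exact hg.right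
  obtain ⟨ε, hε, hnhd⟩ := h.inv.nhd
  have hβ := hp.hβ
  have hβ0 : 0 < β := by linarith
  -- a point joined to `b` is `b`
  have hsingle : ∀ z, Conn W b z → z = b := by
    intro z hz
    rcases lt_trichotomy z b with h1 | h1 | h1
    · exfalso
      have h2 := hz.symm.Icc_subset h1.le
      have hlt := hg.lt
      have h3 : max z ((a + b) / 2) ∈ W := by
        apply h2
        refine ⟨le_max_left _ _, ?_⟩
        apply max_le h1.le; linarith
      have h4 : a < max z ((a + b) / 2) := lt_of_lt_of_le (by linarith) (le_max_right _ _)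
      have h5 : max z ((a + b) / 2) < b := max_lt h1 (by linarith)
      rcases hg.sep _ h3 with h6 | h6 <;> linarith
    · exact h1
    · exact (hz.gap_free hb le_rfl h1).elim
  rcases hbW with ⟨i, hi, hconn⟩ | ⟨j, hj, hconn⟩
  · have h1 := hsingle _ hconn
    have h2 := grow_xs h.inv hp hε.le ((Icc_subset_Icc (by linarith) le_rfl).trans hnhd) i
      (fun j hj => (M0_spec h.inv hp).2 j (by omega))
    have hδ : 0 < β ^ (i + 1) * ε := by positivity
    have h3 : Conn W b (b + β ^ (i + 1) * ε) := by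
      apply conn_of_Icc (by linarith)
      rw [← h1]; exact h2
    have := hsingle _ h3
    linarith
  · have h1 := hsingle _ hconn
    have h2 := grow_ys h.inv hp hε.le ((Icc_subset_Icc le_rfl (by linarith)).trans hnhd) j
      (fun i hi => (M1_spec h.inv hp).2 i (by omega))
    have hδ : 0 < β ^ (j + 1) * ε := by positivity
    have h3 : Conn W b (b - β ^ (j + 1) * ε) := by
      apply Conn.symm
      apply conn_of_Icc (by linarith)
      rw [← h1]; exact h2
    have := hsingle _ h3
    linarith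

end

end Q78.BetaT
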