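import Mathlib

/-!
# The maps `x ↦ β x + α mod 1`
-/

namespace Q78.BetaT

/-- The transformation `T_{α,β}(x) = β x + α (mod 1)` of `[0,1)`. -/
noncomputable def T (α β : ℝ) (x : Set.Ico (0 : ℝ) 1) : Set.Ico (0 : ℝ) 1 :=
  ⟨Int.fract (β * x + α), Int.fract_nonneg _, Int.fract_lt_one _⟩

/-- Topological transitivity: for all nonempty open `U`, `V` some iterate of `U` meets `V`. -/
def TopTransitive {X : Type} [TopologicalSpace X] (f : X → X) : Prop :=
  ∀ U V : Set X, IsOpen U → IsOpen V → U.Nonempty → V.Nonempty →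
    ∃ n : ℕ, ((f^[n] '' U) ∩ V).Nonempty

end Q78.BetaT
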