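import Pool.Agent.Q78.BetaT.Defs

namespace Q78.BetaT

open Set

/-- the point where the map jumps -/
noncomputable def cc (α β : ℝ) : ℝ := (1 - α) / β

/-- left branch -/
def FL (α β x : ℝ) : ℝ := β * x + α

/-- right branch -/
def FR (α β x : ℝ) : ℝ := β * x + α - 1

/-- parameters -/
structure Par (α β : ℝ) : Prop where
  hβ : 1 < β
  hα : 0 ≤ α
  hs : α + β ≤ 2

/-- forward invariant closed sets -/
structure Inv (α β : ℝ) (W : Set ℝ) : Prop where
  closed : IsClosed W
  sub : W ⊆ Icc 0 1
  zero : (0 : ℝ) ∈ W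
  one : (1 : ℝ) ∈ W
  nhd : ∃ ε > 0, Icc (cc α β - ε) (cc α β + ε) ⊆ W
  left : ∀ x ∈ W, x ≤ cc α β → FL α β x ∈ W
  right : ∀ x ∈ W, cc α β ≤ x → FR α β x ∈ W

/-- a gap of `W` -/
structure IsGap (W : Set ℝ) (a b : ℝ) : Prop where
  left : a ∈ W
  right : b ∈ W
  lt : a < b
  sep : ∀ x ∈ W, x ≤ a ∨ b ≤ x

/-- left ends of gaps -/
def E (W : Set ℝ) : Set ℝ := {a | ∃ b, IsGap W a b}

open Classical in
/-- right end of the gap with left end `a`. -/
noncomputable def re (W : Set ℝ) (a : ℝ) : ℝ := if h : ∃ b, IsGap W a b then h.choose else a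

theorem re_spec {W : Set ℝ} {a : ℝ} (h : a ∈ E W) : IsGap W a (re W a) := by
  have h' : ∃ b, IsGap W a b := h
  unfold re
  rw [dif_pos h']
  exact h'.choose_spec

theorem IsGap.mem_E {W : Set ℝ} {a b : ℝ} (h : IsGap W a b) : a ∈ E W := ⟨b, h⟩

theorem IsGap.unique {W : Set ℝ} {a b b' : ℝ} (h : IsGap W a b) (h' : IsGap W a b') : b = b' := by
  rcases h.sep b' h'.right with h1 | h1
  · exact absurd h'.lt (not_lt.2 h1)
  · rcases h'.sep b h.right with h2 | h2
    · exact absurd h.lt (not_lt.2 h2)
    · exact le_antisymm h1 h2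

theorem IsGap.re_eq {W : Set ℝ} {a b : ℝ} (h : IsGap W a b) : re W a = b :=
  (re_spec h.mem_E).unique h

/-- gaps with ordered left ends are disjoint -/
theorem IsGap.le_of_lt {W : Set ℝ} {a b a' b' : ℝ} (h : IsGap W a b) (h' : IsGap W a' b')
    (hlt : a < a') : b ≤ a' := by
  rcases h.sep a' h'.left with h1 | h1
  · exact absurd hlt (not_lt.2 h1)
  · exact h1

theorem exists_gap {W : Set ℝ} (hc : IsClosed W) (h0 : (0 : ℝ) ∈ W) (h1 : (1 : ℝ) ∈ W) {x : ℝ}
    (hx : x ∉ W) (hx0 : 0 ≤ x) (hx1 : x ≤ 1) : ∃ a b, IsGap W a b ∧ a < x ∧ x < b := by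
  have hA1 : (W ∩ Iic x).Nonempty := ⟨0, h0, hx0⟩
  have hA2 : BddAbove (W ∩ Iic x) := ⟨x, fun y hy => hy.2⟩
  have hA3 : IsClosed (W ∩ Iic x) := hc.inter isClosed_Iic
  have hB1 : (W ∩ Ici x).Nonempty := ⟨1, h1, hx1⟩
  have hB2 : BddBelow (W ∩ Ici x) := ⟨x, fun y hy => hy.2⟩
  have hB3 : IsClosed (W ∩ Ici x) := hc.inter isClosed_Ici
  have hA := hA3.csSup_mem hA1 hA2
  have hB := hB3.csInf_mem hB1 hB2
  set a := sSup (W ∩ Iic x)
  set b := sInf (W ∩ Ici x)
  have hax : a < x := lt_of_le_of_ne hA.2 (fun h => hx (h ▸ hA.1))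
  have hxb : x < b := lt_of_le_of_ne hB.2 (fun h => hx (h ▸ hB.1))
  refine ⟨a, b, ⟨hA.1, hB.1, hax.trans hxb, fun y hy => ?_⟩, hax, hxb⟩
  rcases le_total y x with h | h
  · exact Or.inl (le_csSup hA2 ⟨hy, h⟩)
  · exact Or.inr (csInf_le hB2 ⟨hy, h⟩)

section

variable {α β : ℝ} {W : Set ℝ}

theorem Par.c_pos (hp : Par α β) : 0 < cc α β := by
  have h1 := hp.hβ
  have h2 := hp.hs
  unfold cc
  apply div_pos <;> linarith

theorem Par.c_lt (hp : Par α β) : cc α β < 1 := by
  have h1 := hp.hβ
  have h2 := hp.hα
  unfold cc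
  rw [div_lt_one (by linarith)]
  linarith

theorem Par.FL_c (hp : Par α β) : FL α β (cc α β) = 1 := by
  have h1 := hp.hβ
  unfold FL cc
  field_simp
  ring

theorem Par.FR_c (hp : Par α β) : FR α β (cc α β) = 0 := by
  have h1 := hp.hβ
  unfold FR cc
  field_simp
  ring

theorem Inv.c_mem (h : Inv α β W) : cc α β ∈ W := by
  obtain ⟨ε, hε, h1⟩ := h.nhd
  exact h1 ⟨by linarith, by linarith⟩

theorem Inv.exists_gap (h : Inv α β W) {x : ℝ} (hx : x ∉ W) (hx0 : 0 ≤ x) (hx1 : x ≤ 1) :
    ∃ a b, IsGap W a b ∧ a < x ∧ x < b :=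
  Q78.BetaT.exists_gap h.closed h.zero h.one hx hx0 hx1

/-- no gap between two points of `W` -/
theorem Inv.Icc_subset (h : Inv α β W) {x y : ℝ} (hx : x ∈ W) (hy : y ∈ W)
    (hgap : ∀ a ∈ E W, x ≤ a → a < y → False) : Icc x y ⊆ W := by
  intro z hz
  by_contra hcon
  have hz0 : 0 ≤ z := (h.sub hx).1.trans hz.1
  have hz1 : z ≤ 1 := hz.2.trans (h.sub hy).2
  obtain ⟨a, b, hab, h1, h2⟩ := h.exists_gap hcon hz0 hz1
  refine hgap a hab.mem_E ?_ (lt_of_lt_of_le h1 hz.2)
  rcases hab.sep x hx with h3 | h3
  · exact h3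
  · exact absurd hz.1 (not_le.2 (h2.trans_le h3))

/-- a gap lies strictly on one side of `c` -/
theorem Inv.gap_side (h : Inv α β W) {a b : ℝ} (hab : IsGap W a b) :
    b < cc α β ∨ cc α β < a := by
  obtain ⟨ε, hε, h1⟩ := h.nhd
  rcases hab.sep _ h.c_mem with h2 | h2
  · right
    rcases h2.lt_or_eq with h3 | h3
    · exact h3
    · exfalso
      have h4 : min (cc α β + ε) ((a + b) / 2) ∈ W := by
        apply h1
        have := hab.lt
        constructor
        · apply le_min <;> linarith
        · exact min_le_left _ _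
      have h5 : a < min (cc α β + ε) ((a + b) / 2) := by
        have := hab.lt
        apply lt_min <;> linarith
      have h6 : min (cc α β + ε) ((a + b) / 2) < b := by
        have := hab.lt
        exact lt_of_le_of_lt (min_le_right _ _) (by linarith)
      rcases hab.sep _ h4 with h7 | h7 <;> linarith
  · left
    rcases h2.lt_or_eq with h3 | h3
    · exact h3
    · exfalso
      have h4 : max (cc α β - ε) ((a + b) / 2) ∈ W := by
        apply h1
        have := hab.lt
        constructor
        · exact le_max_left _ _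
        · apply max_le <;> linarith
      have h5 : max (cc α β - ε) ((a + b) / 2) < b := by
        have := hab.lt
        apply max_lt <;> linarith
      have h6 : a < max (cc α β - ε) ((a + b) / 2) := by
        have := hab.lt
        exact lt_of_lt_of_le (by linarith) (le_max_right _ _)
      rcases hab.sep _ h4 with h7 | h7 <;> linarith

open Classical in
/-- the branch used on the gap with left end `a`. -/
noncomputable def br (α β a x : ℝ) : ℝ := if a < cc α β then FL α β x else FR α β x

theorem br_sub (α β a x y : ℝ) : br α β a y - br α β a x = β * (y - x) := by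
  unfold br FL FR
  split_ifs <;> ring

theorem br_le (hp : Par α β) {a x y : ℝ} (h : x ≤ y) : br α β a x ≤ br α β a y := by
  have h1 := br_sub α β a x y
  have h2 := hp.hβ
  nlinarith

theorem br_lt (hp : Par α β) {a x y : ℝ} (h : x < y) : br α β a x < br α β a y := by
  have h1 := br_sub α β a x y
  have h2 := hp.hβ
  nlinarith

theorem Inv.br_mem (h : Inv α β W) {a b : ℝ} (hab : IsGap W a b) :
    br α β a a ∈ W ∧ br α β a b ∈ W := by
  rcases h.gap_side hab with h1 | h1
  · have h2 : a < cc α β := hab.lt.trans h1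
    unfold br
    rw [if_pos h2, if_pos h2]
    exact ⟨h.left a hab.left h2.le, h.left b hab.right h1.le⟩
  · have h2 : ¬ a < cc α β := not_lt.2 h1.le
    unfold br
    rw [if_neg h2, if_neg h2]
    exact ⟨h.right a hab.left h1.le, h.right b hab.right (h1.trans hab.lt).le⟩

/-- the gap `a'` is covered by the image of the gap `a`. -/
def Cov (α β : ℝ) (W : Set ℝ) (a a' : ℝ) : Prop :=
  a' ∈ E W ∧ br α β a a ≤ a' ∧ a' < br α β a (re W a)

/-- filling in gaps -/
theorem fill_inv (hp : Par α β) (h : Inv α β W) {C : Set ℝ} (hC : C ⊆ E W) (hfin : C.Finite)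
    (hcov : ∀ a ∈ C, ∀ a', Cov α β W a a' → a' ∈ C) :
    Inv α β (W ∪ ⋃ a ∈ C, Icc a (re W a)) ∧
      E (W ∪ ⋃ a ∈ C, Icc a (re W a)) = E W \ C := by
  have hsubW : ∀ a ∈ C, Icc a (re W a) ⊆ Icc 0 1 := by
    intro a ha z hz
    have hg := re_spec (hC ha)
    exact ⟨(h.sub hg.left).1.trans hz.1, hz.2.trans (h.sub hg.right).2⟩
  have key : ∀ a ∈ C, ∀ x ∈ Icc a (re W a), br α β a x ∈ W ∪ ⋃ a ∈ C, Icc a (re W a) := by
    intro a ha x hx
    have hg := re_spec (hC ha)
    obtain ⟨h1, h2⟩ := h.br_mem hg
    by_cases hmem : br α β a x ∈ W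
    · exact Or.inl hmem
    · right
      have h3 : br α β a a ≤ br α β a x := br_le hp hx.1
      have h4 : br α β a x ≤ br α β a (re W a) := br_le hp hx.2
      obtain ⟨a', b', hg', h5, h6⟩ := h.exists_gap hmem ((h.sub h1).1.trans h3)
        (h4.trans (h.sub h2).2)
      have h7 : br α β a a ≤ a' := by
        rcases hg'.sep _ h1 with h | h
        · exact h
        · linarith
      have h8 : a' < br α β a (re W a) := lt_of_lt_of_le h5 h4
      have h9 : a' ∈ C := hcov a ha a' ⟨hg'.mem_E, h7, h8⟩
      simp only [mem_iUnion]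
      refine ⟨a', h9, h5.le, ?_⟩
      rw [hg'.re_eq]
      exact h6.le
  constructor
  · constructor
    · apply h.closed.union
      exact hfin.isClosed_biUnion (fun a _ => isClosed_Icc)
    · apply union_subset h.sub
      exact iUnion₂_subset hsubW
    · exact Or.inl h.zero
    · exact Or.inl h.one
    · obtain ⟨ε, hε, h1⟩ := h.nhd
      exact ⟨ε, hε, h1.trans subset_union_left⟩
    · rintro x (hx | hx) hxc
      · exact Or.inl (h.left x hx hxc)
      · simp only [mem_iUnion] at hx
        obtain ⟨a, ha, hx⟩ := hx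
        have hg := re_spec (hC ha)
        have hside := h.gap_side hg
        have h2 : a < cc α β := by
          rcases hside with h3 | h3
          · exact hg.lt.trans h3
          · exact absurd (h3.trans_le (hx.1.trans hxc)) (lt_irrefl _)
        have := key a ha x hx
        unfold br at this
        rwa [if_pos h2] at this
    · rintro x (hx | hx) hxc
      · exact Or.inl (h.right x hx hxc)
      · simp only [mem_iUnion] at hx
        obtain ⟨a, ha, hx⟩ := hx
        have hg := re_spec (hC ha)
        have hside := h.gap_side hg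
        have h2 : ¬ a < cc α β := by
          rcases hside with h3 | h3
          · exact absurd (lt_of_le_of_lt (hxc.trans hx.2) h3) (lt_irrefl _)
          · exact not_lt.2 h3.le
        have := key a ha x hx
        unfold br at this
        rwa [if_neg h2] at this
  · ext a
    constructor
    · rintro ⟨b, hab⟩
      -- both ends are in `W`
      have hW : ∀ x ∈ W, x ≤ a ∨ b ≤ x := fun x hx => hab.sep x (Or.inl hx)
      have haW : a ∈ W := by
        rcases hab.left with h1 | h1
        · exact h1
        · simp only [mem_iUnion] at h1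
          obtain ⟨a1, ha1, h1⟩ := h1
          have hg := re_spec (hC ha1)
          rcases h1.2.lt_or_eq with h2 | h2
          · exfalso
            have hlt := hab.lt
            have h3 : min ((a + b) / 2) (re W a1) ∈ W ∪ ⋃ a ∈ C, Icc a (re W a) := by
              right
              simp only [mem_iUnion]
              refine ⟨a1, ha1, ?_, min_le_right _ _⟩
              apply le_min
              · linarith [h1.1]
              · exact hg.lt.le
            rcases hab.sep _ h3 with h4 | h4
            · have : a < min ((a + b) / 2) (re W a1) := lt_min (by linarith) h2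
              linarith
            · have : min ((a + b) / 2) (re W a1) < b :=
                lt_of_le_of_lt (min_le_left _ _) (by linarith)
              linarith
          · rw [h2]; exact hg.right
      have hbW : b ∈ W := by
        rcases hab.right with h1 | h1
        · exact h1
        · simp only [mem_iUnion] at h1
          obtain ⟨a1, ha1, h1⟩ := h1
          have hg := re_spec (hC ha1)
          rcases h1.1.lt_or_eq with h2 | h2
          · exfalso
            have hlt := hab.lt
            have h3 : max ((a + b) / 2) a1 ∈ W ∪ ⋃ a ∈ C, Icc a (re W a) := by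
              right
              simp only [mem_iUnion]
              refine ⟨a1, ha1, le_max_right _ _, ?_⟩
              apply max_le
              · linarith [h1.2]
              · exact hg.lt.le
            rcases hab.sep _ h3 with h4 | h4
            · have : a < max ((a + b) / 2) a1 := lt_of_lt_of_le (by linarith) (le_max_left _ _)
              linarith
            · have : max ((a + b) / 2) a1 < b := max_lt (by linarith) h2
              linarith
          · rw [← h2]; exact hg.left
      have hgW : IsGap W a b := ⟨haW, hbW, hab.lt, hW⟩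
      refine ⟨hgW.mem_E, fun haC => ?_⟩
      have hlt := hab.lt
      have h3 : (a + b) / 2 ∈ W ∪ ⋃ a ∈ C, Icc a (re W a) := by
        right
        simp only [mem_iUnion]
        refine ⟨a, haC, by linarith, ?_⟩
        rw [hgW.re_eq]; linarith
      rcases hab.sep _ h3 with h4 | h4 <;> linarith
    · rintro ⟨⟨b, hab⟩, haC⟩
      refine ⟨b, Or.inl hab.left, Or.inl hab.right, hab.lt, ?_⟩
      rintro x (hx | hx)
      · exact hab.sep x hx
      · simp only [mem_iUnion] at hx
        obtain ⟨a1, ha1, hx⟩ := hx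
        have hg := re_spec (hC ha1)
        have hne : a1 ≠ a := fun h => haC (h ▸ ha1)
        rcases lt_or_gt_of_ne hne with h1 | h1
        · left
          exact hx.2.trans (hg.le_of_lt hab h1)
        · right
          exact (hab.le_of_lt hg h1).trans hx.1

/-- `W` is an invariant set with the least positive number of gaps. -/
structure MinSet (α β : ℝ) (W : Set ℝ) : Prop where
  inv : Inv α β W
  fin : (E W).Finite
  ne : (E W).Nonempty
  least : ∀ W', Inv α β W' → (E W').Finite → (E W').Nonempty → (E W).ncard ≤ (E W').ncard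

/-- fill lemma -/
theorem MinSet.fill (hp : Par α β) (h : MinSet α β W) {C : Set ℝ} (hC : C ⊆ E W) (hne : C.Nonempty)
    (hcov : ∀ a ∈ C, ∀ a', Cov α β W a a' → a' ∈ C) : C = E W := by
  obtain ⟨h1, h2⟩ := fill_inv hp h.inv hC (h.fin.subset hC) hcov
  by_contra hcon
  have h3 : (E W \ C).Nonempty := by
    rw [nonempty_iff_ne_empty]
    intro he
    exact hcon (subset_antisymm hC (sdiff_eq_empty.1 he))
  have h4 := h.least _ h1 (by rw [h2]; exact h.fin.subset sdiff_subset) (by rw [h2]; exact h3)
  rw [h2] at h4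
  have h5 : (E W \ C).ncard < (E W).ncard := by
    apply ncard_lt_ncard _ h.fin
    refine ⟨sdiff_subset, fun hsub => ?_⟩
    obtain ⟨a, ha⟩ := hne
    exact (hsub (hC ha)).2 ha
  omega

theorem Inv.alpha_mem (h : Inv α β W) (hp : Par α β) : α ∈ W := by
  have := h.left 0 h.zero hp.c_pos.le
  unfold FL at this
  simpa using this

theorem Inv.y1_mem (h : Inv α β W) (hp : Par α β) : α + β - 1 ∈ W := by
  have := h.right 1 h.one hp.c_lt.le
  unfold FR at this
  have h2 : β * 1 + α - 1 = α + β - 1 := by ring
  rwa [h2] at this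

/-- covering from the left branch -/
theorem Inv.cov_left (hp : Par α β) (h : Inv α β W) {a' : ℝ} (ha' : a' ∈ E W) (h1 : α ≤ a') :
    ∃ a ∈ E W, a < cc α β ∧ Cov α β W a a' := by
  have hg := re_spec ha'
  have hβ := hp.hβ
  have hβ0 : 0 < β := by linarith
  set b' := re W a'
  set y := (a' + b') / 2 with hy
  have hlt := hg.lt
  have hb1 := (h.sub hg.right).2
  have hyW : y ∉ W := by
    intro hyW
    rcases hg.sep y hyW with h2 | h2 <;> linarith
  set x := (y - α) / β with hx
  have hFx : FL α β x = y := by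
    unfold FL; rw [hx]; field_simp; ring
  have hx0 : 0 ≤ x := by
    rw [hx]; apply div_nonneg <;> linarith
  have hxc : x < cc α β := by
    rw [hx]; unfold cc
    apply div_lt_div_of_pos_right _ hβ0
    linarith
  have hxW : x ∉ W := fun hxW => hyW (hFx ▸ h.left x hxW hxc.le)
  obtain ⟨a, b, hab, h2, h3⟩ := h.exists_gap hxW hx0 (hxc.le.trans hp.c_lt.le)
  have hac : a < cc α β := h2.trans hxc
  refine ⟨a, hab.mem_E, hac, ha', ?_, ?_⟩
  · have h4 : br α β a a < y := by
      have := br_lt hp (a := a) h2
      have h5 : br α β a x = y := by unfold br; rw [if_pos hac]; exact hFx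
      rwa [h5] at this
    rcases hg.sep _ (h.br_mem hab).1 with h5 | h5
    · exact h5
    · linarith
  · rw [hab.re_eq]
    have h4 : y < br α β a b := by
      have := br_lt hp (a := a) h3
      have h5 : br α β a x = y := by unfold br; rw [if_pos hac]; exact hFx
      rwa [h5] at this
    linarith

/-- covering from the right branch -/
theorem Inv.cov_right (hp : Par α β) (h : Inv α β W) {a' : ℝ} (ha' : a' ∈ E W)
    (h1 : a' < α + β - 1) : ∃ a ∈ E W, cc α β < a ∧ Cov α β W a a' := by
  have hg := re_spec ha'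
  have hβ := hp.hβ
  have hβ0 : 0 < β := by linarith
  set b' := re W a'
  set y := (a' + b') / 2 with hy
  have hlt := hg.lt
  have ha0 := (h.sub hg.left).1
  have hb1 : b' ≤ α + β - 1 := by
    rcases hg.sep _ (h.y1_mem hp) with h2 | h2
    · linarith
    · exact h2
  have hyW : y ∉ W := by
    intro hyW
    rcases hg.sep y hyW with h2 | h2 <;> linarith
  set x := (y + 1 - α) / β with hx
  have hFx : FR α β x = y := by
    unfold FR; rw [hx]; field_simp; ring
  have hx1 : x ≤ 1 := by
    rw [hx, div_le_one hβ0]; linarith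
  have hxc : cc α β < x := by
    rw [hx]; unfold cc
    apply div_lt_div_of_pos_right _ hβ0
    linarith
  have hxW : x ∉ W := fun hxW => hyW (hFx ▸ h.right x hxW hxc.le)
  obtain ⟨a, b, hab, h2, h3⟩ := h.exists_gap hxW (hp.c_pos.le.trans hxc.le) hx1
  have hac : cc α β < a := by
    rcases h.gap_side hab with h4 | h4
    · exact absurd (hxc.trans (h3.trans h4)) (lt_irrefl _)
    · exact h4
  have hbr : br α β a x = y := by unfold br; rw [if_neg (not_lt.2 hac.le)]; exact hFx
  refine ⟨a, hab.mem_E, hac, ha', ?_, ?_⟩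
  · have h4 : br α β a a < y := by
      have := br_lt hp (a := a) h2
      rwa [hbr] at this
    rcases hg.sep _ (h.br_mem hab).1 with h5 | h5
    · exact h5
    · linarith
  · rw [hab.re_eq]
    have h4 : y < br α β a b := by
      have := br_lt hp (a := a) h3
      rwa [hbr] at this
    linarith

theorem Inv.cov_any (hp : Par α β) (h : Inv α β W) {a' : ℝ} (ha' : a' ∈ E W) :
    ∃ a ∈ E W, Cov α β W a a' := by
  rcases le_total α a' with h1 | h1
  · obtain ⟨a, h2, -, h3⟩ := h.cov_left hp ha' h1
    exact ⟨a, h2, h3⟩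
  · have : a' < α + β - 1 := by linarith [hp.hβ]
    obtain ⟨a, h2, -, h3⟩ := h.cov_right hp ha' this
    exact ⟨a, h2, h3⟩

/-- every gap covers some gap -/
theorem MinSet.exists_cov (hp : Par α β) (h : MinSet α β W) {a : ℝ} (ha : a ∈ E W) :
    ∃ a', Cov α β W a a' := by
  by_contra hcon
  have hcon' : ∀ a', ¬ Cov α β W a a' := fun a' ha' => hcon ⟨a', ha'⟩
  have h1 : ({a} : Set ℝ) = E W := by
    apply h.fill hp (by simpa using ha) (singleton_nonempty a)
    intro x hx a' ha'
    rw [mem_singleton_iff] at hx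
    subst hx
    exact absurd ha' (hcon' a')
  obtain ⟨a1, ha1, h2⟩ := h.inv.cov_any hp ha
  rw [← h1, mem_singleton_iff] at ha1
  subst ha1
  exact hcon' _ h2

end

end Q78.BetaT
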