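import Pool.Agent.Q78.BetaT.Core

namespace Q78.BetaT

open Set

variable {α β : ℝ} {W : Set ℝ}

/-- next gap (left end) at or after `x` -/
noncomputable def Rg (W : Set ℝ) (x : ℝ) : ℝ := sInf {a | a ∈ E W ∧ x ≤ a}

/-- last gap (left end) before `x` -/
noncomputable def Lg (W : Set ℝ) (x : ℝ) : ℝ := sSup {a | a ∈ E W ∧ a < x}

theorem Rg_spec (hfin : (E W).Finite) {x : ℝ} (h : ∃ a ∈ E W, x ≤ a) :
    Rg W x ∈ E W ∧ x ≤ Rg W x ∧ ∀ a' ∈ E W, x ≤ a' → Rg W x ≤ a' := by
  obtain ⟨a, h1, h2, h3⟩ := exists_next hfin h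
  have : IsLeast {a | a ∈ E W ∧ x ≤ a} a := ⟨⟨h1, h2⟩, fun a' ha' => h3 a' ha'.1 ha'.2⟩
  have he : Rg W x = a := this.csInf_eq
  rw [he]
  exact ⟨h1, h2, h3⟩

theorem Lg_spec (hfin : (E W).Finite) {x : ℝ} (h : ∃ a ∈ E W, a < x) :
    Lg W x ∈ E W ∧ Lg W x < x ∧ ∀ a' ∈ E W, a' < x → a' ≤ Lg W x := by
  obtain ⟨a, h1, h2, h3⟩ := exists_prev hfin h
  have : IsGreatest {a | a ∈ E W ∧ a < x} a := ⟨⟨h1, h2⟩, fun a' ha' => h3 a' ha'.1 ha'.2⟩
  have he : Lg W x = a := this.csSup_eq
  rw [he]
  exact ⟨h1, h2, h3⟩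

theorem conn_gt_iff {x y a : ℝ} (h : Conn W x y) (ha : a ∈ E W) : x ≤ a ↔ y ≤ a := by
  constructor
  · intro h1
    by_contra h2
    exact h.gap_free ha h1 (not_le.1 h2)
  · intro h1
    by_contra h2
    exact h.symm.gap_free ha h1 (not_le.1 h2)

theorem conn_lt_iff {x y a : ℝ} (h : Conn W x y) (ha : a ∈ E W) : a < x ↔ a < y := by
  rw [← not_le, ← not_le, conn_gt_iff h ha]

theorem Rg_congr {x y : ℝ} (h : Conn W x y) : Rg W x = Rg W y := by
  unfold Rg
  congr 1
  ext a
  constructor
  · rintro ⟨h1, h2⟩; exact ⟨h1, (conn_gt_iff h h1).1 h2⟩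
  · rintro ⟨h1, h2⟩; exact ⟨h1, (conn_gt_iff h h1).2 h2⟩

theorem Lg_congr {x y : ℝ} (h : Conn W x y) : Lg W x = Lg W y := by
  unfold Lg
  congr 1
  ext a
  constructor
  · rintro ⟨h1, h2⟩; exact ⟨h1, (conn_lt_iff h h1).1 h2⟩
  · rintro ⟨h1, h2⟩; exact ⟨h1, (conn_lt_iff h h1).2 h2⟩

/-- first covered gap -/
noncomputable def NR (α β : ℝ) (W : Set ℝ) (a : ℝ) : ℝ := Rg W (br α β a a)

/-- last covered gap -/
noncomputable def NL (α β : ℝ) (W : Set ℝ) (a : ℝ) : ℝ := Lg W (br α β a (re W a))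

theorem MinSet.NR_spec (hp : Par α β) (h : MinSet α β W) {a : ℝ} (ha : a ∈ E W) :
    Cov α β W a (NR α β W a) ∧ ∀ a', Cov α β W a a' → NR α β W a ≤ a' := by
  obtain ⟨a', h1, h2, h3⟩ := h.exists_cov hp ha
  obtain ⟨h4, h5, h6⟩ := Rg_spec h.fin ⟨a', h1, h2⟩
  exact ⟨⟨h4, h5, lt_of_le_of_lt (h6 a' h1 h2) h3⟩, fun a'' h7 => h6 a'' h7.1 h7.2.1⟩

theorem MinSet.NL_spec (hp : Par α β) (h : MinSet α β W) {a : ℝ} (ha : a ∈ E W) :
    Cov α β W a (NL α β W a) ∧ ∀ a', Cov α β W a a' → a' ≤ NL α β W a := by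
  obtain ⟨a', h1, h2, h3⟩ := h.exists_cov hp ha
  obtain ⟨h4, h5, h6⟩ := Lg_spec h.fin ⟨a', h1, h3⟩
  exact ⟨⟨h4, h2.trans (h6 a' h1 h3), h5⟩, fun a'' h7 => h6 a'' h7.1 h7.2.2⟩

/-- length of a gap -/
noncomputable def len (W : Set ℝ) (a : ℝ) : ℝ := re W a - a

theorem len_pos {a : ℝ} (ha : a ∈ E W) : 0 < len W a := by
  have := (re_spec ha).lt
  unfold len; linarith

theorem Inv.cov_re (hW : Inv α β W) {a a' : ℝ} (ha : a ∈ E W) (h : Cov α β W a a') :
    re W a' ≤ br α β a (re W a) := by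
  rcases (re_spec h.1).sep _ (hW.br_mem (re_spec ha)).2 with h1 | h1
  · exact absurd h.2.2 (not_lt.2 h1)
  · exact h1

theorem Inv.len_cov (hW : Inv α β W) {a a' : ℝ} (ha : a ∈ E W) (h : Cov α β W a a') :
    len W a' ≤ β * len W a := by
  have h1 := hW.cov_re ha h
  have h2 := br_sub α β a a (re W a)
  have h3 := h.2.1
  unfold len
  linarith

theorem MinSet.len_two (hp : Par α β) (h : MinSet α β W) {a a' a'' : ℝ} (ha : a ∈ E W)
    (h1 : Cov α β W a a') (h2 : Cov α β W a a'') (hlt : a' < a'') :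
    len W a' + len W a'' < β * len W a := by
  have h3 := h.inv.cov_re ha h2
  have h4 := br_sub α β a a (re W a)
  have h5 := h1.2.1
  have h6 : re W a' ≤ a'' := (re_spec h1.1).le_of_lt (re_spec h2.1) hlt
  have h7 : re W a' ≠ a'' := fun he => h.re_notMem hp h1.1 (he ▸ h2.1)
  have h8 : re W a' < a'' := lt_of_le_of_ne h6 h7
  unfold len
  linarith

theorem MinSet.conn_Rg (h : MinSet α β W) {x : ℝ} (hx : x ∈ W) (hex : ∃ a ∈ E W, x ≤ a) :
    Conn W x (Rg W x) := by
  obtain ⟨h1, h2, h3⟩ := Rg_spec h.fin hex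
  apply conn_of_Icc h2
  apply h.inv.Icc_subset hx (re_spec h1).left
  intro a ha h4 h5
  exact absurd (h3 a ha h4) (not_le.2 h5)

theorem MinSet.conn_Lg (h : MinSet α β W) {x : ℝ} (hx : x ∈ W) (hex : ∃ a ∈ E W, a < x) :
    Conn W (re W (Lg W x)) x := by
  obtain ⟨h1, h2, h3⟩ := Lg_spec h.fin hex
  have hg := re_spec h1
  have h4 : re W (Lg W x) ≤ x := by
    rcases hg.sep x hx with h5 | h5
    · exact absurd h2 (not_lt.2 h5)
    · exact h5
  apply conn_of_Icc h4
  apply h.inv.Icc_subset hg.right hx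
  intro a ha h5 h6
  have h7 := h3 a ha h6
  have h8 := hg.lt
  linarith

/-- the loop of gaps to the right of the orbit of `0` -/
theorem MinSet.loopR (hp : Par α β) (h : MinSet α β W) (i : ℕ) (hi : i ≤ M0 α β W) :
    (∃ a ∈ E W, xs α β i ≤ a) ∧ (NR α β W)^[i] (Rg W 0) = Rg W (xs α β i) := by
  induction i with
  | zero =>
    obtain ⟨a, ha⟩ := h.ne
    refine ⟨⟨a, ha, ?_⟩, rfl⟩
    exact (h.inv.sub (re_spec ha).left).1
  | succ i ih =>
    obtain ⟨h1, h2⟩ := ih (by omega)
    have hx := xs_mem h.inv hp i (by omega)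
    obtain ⟨h3, h4, h5⟩ := Rg_spec h.fin h1
    have hconn := h.conn_Rg hx h1
    set a := Rg W (xs α β i) with ha
    have hnc := (M0_spec h.inv hp).2 i (by omega)
    have hstep : Conn W (xs α β (i + 1)) (br α β a a) := by
      rcases same_side hconn.symm hnc with ⟨h6, h7⟩ | ⟨h6, h7⟩
      · have := conn_FL h.inv hp hconn h7.le h6.le
        unfold br
        rw [if_pos h6, xs, if_pos h7]
        exact this
      · have := conn_FR h.inv hp hconn h7.le h6.le
        unfold br
        rw [if_neg (not_lt.2 h6.le), xs, if_neg (not_lt.2 h7.le)]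
        exact this
    have hcov := (h.NR_spec hp h3).1
    constructor
    · refine ⟨NR α β W a, hcov.1, ?_⟩
      rw [conn_gt_iff hstep hcov.1]
      exact hcov.2.1
    · rw [Function.iterate_succ_apply', h2]
      unfold NR
      exact (Rg_congr hstep).symm

theorem MinSet.c_right (hp : Par α β) (h : MinSet α β W) :
    (∃ a ∈ E W, cc α β ≤ a) ∧ Rg W (xs α β (M0 α β W)) = Rg W (cc α β) ∧
      cc α β < Rg W (cc α β) ∧ NR α β W (Rg W (cc α β)) = Rg W 0 := by
  obtain ⟨⟨a, ha, h1⟩, -⟩ := h.loopR hp (M0 α β W) le_rfl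
  have hconn := (M0_spec h.inv hp).1
  have hex : ∃ a ∈ E W, cc α β ≤ a := ⟨a, ha, (conn_gt_iff hconn ha).1 h1⟩
  obtain ⟨h3, h4, h5⟩ := Rg_spec h.fin hex
  have hlt : cc α β < Rg W (cc α β) := by
    rcases h.inv.gap_side (re_spec h3) with h6 | h6
    · have := (re_spec h3).lt
      linarith
    · exact h6
  refine ⟨hex, Rg_congr hconn, hlt, ?_⟩
  have hc := h.conn_Rg h.inv.c_mem hex
  have h6 := conn_FR h.inv hp hc le_rfl hlt.le
  rw [hp.FR_c] at h6
  unfold NR
  have h7 : br α β (Rg W (cc α β)) (Rg W (cc α β)) = FR α β (Rg W (cc α β)) := by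
    unfold br; rw [if_neg (not_lt.2 hlt.le)]
  rw [h7]
  exact (Rg_congr h6).symm

theorem MinSet.loopR_close (hp : Par α β) (h : MinSet α β W) :
    (NR α β W)^[M0 α β W + 1] (Rg W 0) = Rg W 0 := by
  rw [Function.iterate_succ_apply', (h.loopR hp _ le_rfl).2]
  obtain ⟨-, h1, -, h2⟩ := h.c_right hp
  rw [h1, h2]

/-- the loop of gaps to the left of the orbit of `1` -/
theorem MinSet.loopL (hp : Par α β) (h : MinSet α β W) (i : ℕ) (hi : i ≤ M1 α β W) :
    (∃ a ∈ E W, a < ys α β i) ∧ (NL α β W)^[i] (Lg W 1) = Lg W (ys α β i) := by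
  induction i with
  | zero =>
    obtain ⟨a, ha⟩ := h.ne
    refine ⟨⟨a, ha, ?_⟩, rfl⟩
    have := (h.inv.sub (re_spec ha).right).2
    exact lt_of_lt_of_le (re_spec ha).lt this
  | succ i ih =>
    obtain ⟨h1, h2⟩ := ih (by omega)
    have hx := ys_mem h.inv hp i (by omega)
    obtain ⟨h3, h4, h5⟩ := Lg_spec h.fin h1
    have hconn := h.conn_Lg hx h1
    set a := Lg W (ys α β i) with ha
    have hg := re_spec h3
    have hnc := (M1_spec h.inv hp).2 i (by omega)
    have hstep : Conn W (br α β a (re W a)) (ys α β (i + 1)) := by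
      rcases same_side hconn hnc with ⟨h6, h7⟩ | ⟨h6, h7⟩
      · have := conn_FL h.inv hp hconn h6.le h7.le
        unfold br
        rw [if_pos (hg.lt.trans h6), ys, if_pos h7.le]
        exact this
      · have := conn_FR h.inv hp hconn h6.le h7.le
        have h8 : cc α β < a := by
          rcases h.inv.gap_side hg with h9 | h9
          · linarith
          · exact h9
        unfold br
        rw [if_neg (not_lt.2 h8.le), ys, if_neg (not_le.2 h7)]
        exact this
    have hcov := (h.NL_spec hp h3).1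
    constructor
    · refine ⟨NL α β W a, hcov.1, ?_⟩
      rw [← conn_lt_iff hstep hcov.1]
      exact hcov.2.2
    · rw [Function.iterate_succ_apply', h2]
      unfold NL
      exact Lg_congr hstep

theorem MinSet.c_left (hp : Par α β) (h : MinSet α β W) :
    (∃ a ∈ E W, a < cc α β) ∧ Lg W (ys α β (M1 α β W)) = Lg W (cc α β) ∧
      re W (Lg W (cc α β)) < cc α β ∧ NL α β W (Lg W (cc α β)) = Lg W 1 := by
  obtain ⟨⟨a, ha, h1⟩, -⟩ := h.loopL hp (M1 α β W) le_rfl
  have hconn := (M1_spec h.inv hp).1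
  have hex : ∃ a ∈ E W, a < cc α β := ⟨a, ha, (conn_lt_iff hconn ha).1 h1⟩
  obtain ⟨h3, h4, h5⟩ := Lg_spec h.fin hex
  have hlt : re W (Lg W (cc α β)) < cc α β := by
    rcases h.inv.gap_side (re_spec h3) with h6 | h6
    · exact h6
    · linarith
  refine ⟨hex, Lg_congr hconn, hlt, ?_⟩
  have hc := h.conn_Lg h.inv.c_mem hex
  have h6 := conn_FL h.inv hp hc hlt.le le_rfl
  rw [hp.FL_c] at h6
  unfold NL
  have h7 : br α β (Lg W (cc α β)) (re W (Lg W (cc α β))) = FL α β (re W (Lg W (cc α β))) := by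
    unfold br; rw [if_pos h4]
  rw [h7]
  exact Lg_congr h6

theorem MinSet.loopL_close (hp : Par α β) (h : MinSet α β W) :
    (NL α β W)^[M1 α β W + 1] (Lg W 1) = Lg W 1 := by
  rw [Function.iterate_succ_apply', (h.loopL hp _ le_rfl).2]
  obtain ⟨-, h1, -, h2⟩ := h.c_left hp
  rw [h1, h2]

/-- the inequality `β ^ (-n₀) + β ^ (-n₁) ≥ 1`. -/
theorem MinSet.kraft (hp : Par α β) (h : MinSet α β W) :
    1 ≤ (β ^ (M0 α β W + 1))⁻¹ + (β ^ (M1 α β W + 1))⁻¹ := by
  have hβ := hp.hβ
  have hβ0 : 0 < β := by linarith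
  obtain ⟨hexR, -, hR, -⟩ := h.c_right hp
  obtain ⟨hexL, -, hL, -⟩ := h.c_left hp
  obtain ⟨hR1, hR2, hR3⟩ := Rg_spec h.fin hexR
  obtain ⟨hL1, hL2, hL3⟩ := Lg_spec h.fin hexL
  set c := cc α β with hc
  set a := Rg W c with ha
  set b := re W (Lg W c) with hb
  have hca : Conn W c a := h.conn_Rg h.inv.c_mem hexR
  have hbc : Conn W b c := h.conn_Lg h.inv.c_mem hexL
  set r := a - c with hr
  set l := c - b with hl
  have hr0 : 0 < r := by linarith
  have hl0 : 0 < l := by linarith
  -- bounds for the component of `c`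
  have hup : ∀ z, Conn W c z → z ≤ c + r := by
    intro z hz
    by_contra hcon
    exact hz.gap_free hR1 hR2 (by linarith)
  have hlow : ∀ z, Conn W c z → c - l ≤ z := by
    intro z hz
    by_contra hcon
    have hg := re_spec hL1
    have hzW := hz.right_mem
    rcases hg.sep z hzW with h1 | h1
    · exact hz.symm.gap_free hL1 h1 hL2
    · linarith
  have h1 : β ^ (M0 α β W + 1) * r ≤ l + r := by
    have hs := M0_spec h.inv hp
    have hg := grow_xs h.inv hp hr0.le (by
      have := hca.Icc_subset hR.le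
      have e : c + r = a := by rw [hr]; ring
      rw [← hc, e]; exact this) (M0 α β W) hs.2
    have hδ : 0 < β ^ (M0 α β W + 1) * r := by positivity
    have h2 := hlow _ hs.1.symm
    have h3 : Conn W (xs α β (M0 α β W)) (xs α β (M0 α β W) + β ^ (M0 α β W + 1) * r) :=
      conn_of_Icc (by linarith) hg
    have h4 := hup _ (hs.1.symm.trans h3)
    linarith
  have h2 : β ^ (M1 α β W + 1) * l ≤ l + r := by
    have hs := M1_spec h.inv hp
    have hg := grow_ys h.inv hp hl0.le (by
      have := hbc.Icc_subset hL.le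
      have e : c - l = b := by rw [hl]; ring
      rw [← hc, e]; exact this) (M1 α β W) hs.2
    have hδ : 0 < β ^ (M1 α β W + 1) * l := by positivity
    have h2 := hup _ hs.1.symm
    have h3 : Conn W (ys α β (M1 α β W)) (ys α β (M1 α β W) - β ^ (M1 α β W + 1) * l) :=
      (conn_of_Icc (by linarith) hg).symm
    have h4 := hlow _ (hs.1.symm.trans h3)
    linarith
  have h3 : r / (l + r) ≤ (β ^ (M0 α β W + 1))⁻¹ := by
    rw [div_le_iff₀ (by positivity), inv_mul_eq_div, le_div_iff₀ (by positivity)]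
    linarith
  have h4 : l / (l + r) ≤ (β ^ (M1 α β W + 1))⁻¹ := by
    rw [div_le_iff₀ (by positivity), inv_mul_eq_div, le_div_iff₀ (by positivity)]
    linarith
  have h5 : r / (l + r) + l / (l + r) = 1 := by
    rw [← add_div, add_comm r l, div_self (by positivity)]
  linarith

/-- a gap common to the two loops -/
theorem MinSet.common (hp : Par α β) (h : MinSet α β W) :
    ∃ a ∈ E W, (NR α β W)^[M0 α β W + 1] a = a ∧ (NL α β W)^[M1 α β W + 1] a = a := by
  -- the largest gap of the first loop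
  obtain ⟨i, hi, hmax⟩ := Set.exists_max_image {i : ℕ | i ≤ M0 α β W}
    (fun i => Rg W (xs α β i)) (Set.finite_le_nat _) ⟨0, Nat.zero_le _⟩
  have hi' : i ≤ M0 α β W := hi
  obtain ⟨hex, hit⟩ := h.loopR hp i hi'
  obtain ⟨h1, h2, h3⟩ := Rg_spec h.fin hex
  set a := Rg W (xs α β i) with ha
  have hg := re_spec h1
  refine ⟨a, h1, ?_, ?_⟩
  · rw [← hit, ← Function.iterate_add_apply, add_comm, Function.iterate_add_apply,
      h.loopR_close hp]
  · have hb : re W a ∈ core α β W := by rw [h.core_eq hp]; exact hg.right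
    rcases hb with ⟨k, hk, hconn⟩ | ⟨k, hk, hconn⟩
    · exfalso
      obtain ⟨hex', -⟩ := h.loopR hp k hk
      obtain ⟨h4, h5, -⟩ := Rg_spec h.fin hex'
      have h6 := hmax k hk
      have h7 := (conn_gt_iff hconn h4).2 h5
      have h8 := hg.lt
      have h9 : Rg W (xs α β k) ≤ a := h6
      linarith
    · obtain ⟨-, hit'⟩ := h.loopL hp k hk
      have h4 : Lg W (ys α β k) = a := by
        rw [← Lg_congr hconn]
        have hex' : ∃ a' ∈ E W, a' < re W a := ⟨a, h1, hg.lt⟩
        obtain ⟨h5, h6, h7⟩ := Lg_spec h.fin hex'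
        apply le_antisymm
        · by_contra hcon
          have := hg.le_of_lt (re_spec h5) (not_le.1 hcon)
          linarith
        · exact h7 a h1 hg.lt
      rw [h4] at hit'
      rw [← hit', ← Function.iterate_add_apply, add_comm, Function.iterate_add_apply,
        h.loopL_close hp]

theorem MinSet.iter_mem_R (hp : Par α β) (h : MinSet α β W) {a : ℝ} (ha : a ∈ E W) (n : ℕ) :
    (NR α β W)^[n] a ∈ E W := by
  induction n with
  | zero => exact ha
  | succ n ih =>
    rw [Function.iterate_succ_apply']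
    exact (h.NR_spec hp ih).1.1

theorem MinSet.iter_mem_L (hp : Par α β) (h : MinSet α β W) {a : ℝ} (ha : a ∈ E W) (n : ℕ) :
    (NL α β W)^[n] a ∈ E W := by
  induction n with
  | zero => exact ha
  | succ n ih =>
    rw [Function.iterate_succ_apply']
    exact (h.NL_spec hp ih).1.1

theorem MinSet.len_iter_R (hp : Par α β) (h : MinSet α β W) {a : ℝ} (ha : a ∈ E W) (n : ℕ) :
    len W ((NR α β W)^[n] a) ≤ β ^ n * len W a := by
  have hβ0 : 0 < β := by linarith [hp.hβ]
  induction n with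
  | zero => simp
  | succ n ih =>
    rw [Function.iterate_succ_apply']
    have h1 := h.inv.len_cov (h.iter_mem_R hp ha n) (h.NR_spec hp (h.iter_mem_R hp ha n)).1
    calc _ ≤ β * len W ((NR α β W)^[n] a) := h1
      _ ≤ β * (β ^ n * len W a) := by gcongr
      _ = β ^ (n + 1) * len W a := by rw [pow_succ]; ring

theorem MinSet.len_iter_L (hp : Par α β) (h : MinSet α β W) {a : ℝ} (ha : a ∈ E W) (n : ℕ) :
    len W ((NL α β W)^[n] a) ≤ β ^ n * len W a := by
  have hβ0 : 0 < β := by linarith [hp.hβ]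
  induction n with
  | zero => simp
  | succ n ih =>
    rw [Function.iterate_succ_apply']
    have h1 := h.inv.len_cov (h.iter_mem_L hp ha n) (h.NL_spec hp (h.iter_mem_L hp ha n)).1
    calc _ ≤ β * len W ((NL α β W)^[n] a) := h1
      _ ≤ β * (β ^ n * len W a) := by gcongr
      _ = β ^ (n + 1) * len W a := by rw [pow_succ]; ring

/-- the loops coincide -/
theorem MinSet.coincide (hp : Par α β) (h : MinSet α β W) {a : ℝ} (ha : a ∈ E W)
    (hR : (NR α β W)^[M0 α β W + 1] a = a) (hL : (NL α β W)^[M1 α β W + 1] a = a) (d : ℕ)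
    (hd : d ≤ min (M0 α β W + 1) (M1 α β W + 1)) :
    (NR α β W)^[d] a = (NL α β W)^[d] a := by
  have hβ := hp.hβ
  have hβ0 : 0 < β := by linarith
  induction d with
  | zero => rfl
  | succ d ih =>
    have hd0 : d + 1 ≤ M0 α β W + 1 := hd.trans (min_le_left _ _)
    have hd1 : d + 1 ≤ M1 α β W + 1 := hd.trans (min_le_right _ _)
    have ih' := ih (by omega)
    rw [Function.iterate_succ_apply', Function.iterate_succ_apply', ← ih']
    set e := (NR α β W)^[d] a with he
    have heE : e ∈ E W := h.iter_mem_R hp ha d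
    obtain ⟨hc1, hc2⟩ := h.NR_spec hp heE
    obtain ⟨hc3, hc4⟩ := h.NL_spec hp heE
    by_contra hne
    have hlt : NR α β W e < NL α β W e := lt_of_le_of_ne (hc2 _ hc3) hne
    have h1 := h.len_two hp heE hc1 hc3 hlt
    have h2 : len W e ≤ β ^ d * len W a := h.len_iter_R hp ha d
    -- return
    have h3 : len W a ≤ β ^ (M0 α β W - d) * len W (NR α β W e) := by
      have h4 := h.len_iter_R hp hc1.1 (M0 α β W - d)
      have h5 : (NR α β W)^[M0 α β W - d] (NR α β W e) = a := by
        rw [← Function.iterate_succ_apply, he, ← Function.iterate_add_apply]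
        have : (M0 α β W - d).succ + d = M0 α β W + 1 := by omega
        rw [this, hR]
      rwa [h5] at h4
    have h3' : len W a ≤ β ^ (M1 α β W - d) * len W (NL α β W e) := by
      have h4 := h.len_iter_L hp hc3.1 (M1 α β W - d)
      have h5 : (NL α β W)^[M1 α β W - d] (NL α β W e) = a := by
        rw [← Function.iterate_succ_apply, ih', ← Function.iterate_add_apply]
        have : (M1 α β W - d).succ + d = M1 α β W + 1 := by omega
        rw [this, hL]
      rwa [h5] at h4
    have hx := len_pos ha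
    set x := len W a
    have hk := h.kraft hp
    have e0 : β ^ (M0 α β W + 1) = β ^ (M0 α β W - d) * β ^ (d + 1) := by
      rw [← pow_add]; congr 1; omega
    have e1 : β ^ (M1 α β W + 1) = β ^ (M1 α β W - d) * β ^ (d + 1) := by
      rw [← pow_add]; congr 1; omega
    have g0 : x * (β ^ (M0 α β W + 1))⁻¹ * β ^ (d + 1) ≤ len W (NR α β W e) := by
      rw [e0, mul_inv]
      have : x * ((β ^ (M0 α β W - d))⁻¹ * (β ^ (d + 1))⁻¹) * β ^ (d + 1) =
          x * (β ^ (M0 α β W - d))⁻¹ := by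
        field_simp
      rw [this, ← div_eq_mul_inv, div_le_iff₀ (by positivity)]
      linarith
    have g1 : x * (β ^ (M1 α β W + 1))⁻¹ * β ^ (d + 1) ≤ len W (NL α β W e) := by
      rw [e1, mul_inv]
      have : x * ((β ^ (M1 α β W - d))⁻¹ * (β ^ (d + 1))⁻¹) * β ^ (d + 1) =
          x * (β ^ (M1 α β W - d))⁻¹ := by
        field_simp
      rw [this, ← div_eq_mul_inv, div_le_iff₀ (by positivity)]
      linarith
    have g2 : x * β ^ (d + 1) ≤ x * (β ^ (M0 α β W + 1))⁻¹ * β ^ (d + 1) +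
        x * (β ^ (M1 α β W + 1))⁻¹ * β ^ (d + 1) := by
      have hpos : 0 < x * β ^ (d + 1) := by positivity
      nlinarith
    have g3 : β * len W e ≤ x * β ^ (d + 1) := by
      calc β * len W e ≤ β * (β ^ d * x) := by gcongr
        _ = x * β ^ (d + 1) := by rw [pow_succ]; ring
    linarith

/-- Structure theorem: every gap covers exactly one gap, and every gap is covered by exactly one
gap. -/
theorem MinSet.structure (hp : Par α β) (h : MinSet α β W) :
    (∀ a ∈ E W, ∀ a', Cov α β W a a' → a' = NR α β W a) ∧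
      (∀ a ∈ E W, ∀ b ∈ E W, NR α β W a = NR α β W b → a = b) := by
  obtain ⟨a, ha, hR, hL⟩ := h.common hp
  set n := min (M0 α β W + 1) (M1 α β W + 1) with hn
  have hn1 : 1 ≤ n := by omega
  have hco := h.coincide hp ha hR hL
  have hclose : (NR α β W)^[n] a = a := by
    rcases le_total (M0 α β W + 1) (M1 α β W + 1) with h1 | h1
    · have : n = M0 α β W + 1 := min_eq_left h1
      rw [this, hR]
    · have : n = M1 α β W + 1 := min_eq_right h1
      rw [hco n le_rfl, this, hL]
  set C : Set ℝ := {x | ∃ i < n, (NR α β W)^[i] a = x} with hC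
  have hsucc : ∀ x ∈ C, NR α β W x ∈ C := by
    rintro x ⟨i, hi, rfl⟩
    by_cases h1 : i + 1 < n
    · exact ⟨i + 1, h1, Function.iterate_succ_apply' _ _ _⟩
    · have : i + 1 = n := by omega
      refine ⟨0, by omega, ?_⟩
      rw [← Function.iterate_succ_apply' (NR α β W) i a, Nat.succ_eq_add_one, this, hclose]
      rfl
  have heq : ∀ x ∈ C, NR α β W x = NL α β W x := by
    rintro x ⟨i, hi, rfl⟩
    have h1 := hco (i + 1) (by omega)
    rw [Function.iterate_succ_apply', Function.iterate_succ_apply', ← hco i (by omega)] at h1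
    exact h1
  have hCE : C ⊆ E W := by
    rintro x ⟨i, hi, rfl⟩
    exact h.iter_mem_R hp ha i
  have huniq : ∀ x ∈ C, ∀ a', Cov α β W x a' → a' = NR α β W x := by
    intro x hx a' ha'
    apply le_antisymm
    · rw [heq x hx]
      exact (h.NL_spec hp (hCE hx)).2 a' ha'
    · exact (h.NR_spec hp (hCE hx)).2 a' ha'
  have hfill : C = E W := by
    apply h.fill hp hCE ⟨a, 0, by omega, rfl⟩
    intro x hx a' ha'
    rw [huniq x hx a' ha']
    exact hsucc x hx
  refine ⟨fun x hx => huniq x (hfill ▸ hx), ?_⟩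
  -- injectivity of a surjection of a finite set
  have hmaps : MapsTo (NR α β W) (E W) (E W) := by
    intro x hx
    exact (h.NR_spec hp hx).1.1
  have hsurj : SurjOn (NR α β W) (E W) (E W) := by
    intro x hx
    rw [← hfill] at hx
    obtain ⟨i, hi, rfl⟩ := hx
    cases i with
    | zero =>
      refine ⟨(NR α β W)^[n - 1] a, h.iter_mem_R hp ha _, ?_⟩
      rw [← Function.iterate_succ_apply' (NR α β W) (n - 1) a]
      have : (n - 1).succ = n := by omega
      rw [this, hclose]
      rfl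
    | succ i =>
      exact ⟨(NR α β W)^[i] a, h.iter_mem_R hp ha _, (Function.iterate_succ_apply' _ _ _).symm⟩
  have hinj : InjOn (NR α β W) (E W) := by
    have := h.fin
    exact (h.fin.surjOn_iff_bijOn_of_mapsTo hmaps).1 hsurj |>.injOn
  intro x hx y hy hxy
  exact hinj hx hy hxy

/-- no gap between `α` and `α + β - 1`. -/
theorem MinSet.no_gap (hp : Par α β) (h : MinSet α β W) {a' : ℝ} (ha' : a' ∈ E W) (h1 : α ≤ a')
    (h2 : a' < α + β - 1) : False := by
  obtain ⟨s1, s2⟩ := h.structure hp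
  obtain ⟨a, ha, hac, hcov⟩ := h.inv.cov_left hp ha' h1
  obtain ⟨b, hb, hbc, hcov'⟩ := h.inv.cov_right hp ha' h2
  have e1 := s1 a ha a' hcov
  have e2 := s1 b hb a' hcov'
  have := s2 a ha b hb (e1.symm.trans e2)
  linarith

theorem MinSet.lower (hp : Par α β) (h : MinSet α β W) : 1 - 1 / β < α := by
  have hβ := hp.hβ
  have hα := hp.hα
  have hβ0 : 0 < β := by linarith
  -- the first gap
  obtain ⟨hexL, -, hL, -⟩ := h.c_left hp
  have hex0 : ∃ a ∈ E W, (0 : ℝ) ≤ a := by
    obtain ⟨a, ha⟩ := h.ne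
    exact ⟨a, ha, (h.inv.sub (re_spec ha).left).1⟩
  obtain ⟨h1, h2, h3⟩ := Rg_spec h.fin hex0
  have hconn := h.conn_Rg h.inv.zero hex0
  set a := Rg W 0 with ha
  have hg := re_spec h1
  have hmin : ∀ a' ∈ E W, a ≤ a' := fun a' ha' => h3 a' ha' (h.inv.sub (re_spec ha').left).1
  have hac : a < cc α β := by
    obtain ⟨a', ha', h4⟩ := hexL
    exact lt_of_le_of_lt (hmin a' ha') h4
  have hbc : re W a < cc α β := by
    rcases h.inv.gap_side hg with h4 | h4
    · exact h4
    · linarith
  -- `a < α`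
  have haα : a < α := by
    by_contra hcon
    have h4 := conn_FL h.inv hp hconn (by linarith) hac.le
    have h5 : FL α β 0 = α := by unfold FL; ring
    rw [h5] at h4
    have h6 : Conn W 0 α := hconn.of_mem (by
      rw [uIcc_of_le h2]; exact ⟨hα, not_lt.1 hcon⟩) |>.symm |> fun h => hconn.trans h
    have h7 : Conn W 0 (FL α β a) := h6.trans h4
    have h8 : a < FL α β a := by
      unfold FL
      have h9 : 0 < a := by
        rcases h2.lt_or_eq with h10 | h10
        · exact h10
        · exfalso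
          -- a neighbourhood of `0` lies in `W`
          obtain ⟨ε, hε, hnhd⟩ := h.inv.nhd
          have h11 : Conn W (cc α β) (cc α β + ε) :=
            conn_of_Icc (by linarith) ((Icc_subset_Icc (by linarith) le_rfl).trans hnhd)
          have h12 := conn_FR h.inv hp h11 le_rfl (by linarith)
          rw [hp.FR_c] at h12
          have h13 : 0 < FR α β (cc α β + ε) := by
            have := hp.FR_c
            unfold FR at this ⊢
            nlinarith
          exact h12.gap_free h1 h2 (h10 ▸ h13)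
      nlinarith
    exact h7.gap_free h1 h2 h8
  have hbα : re W a ≤ α := by
    rcases hg.sep α (h.inv.alpha_mem hp) with h4 | h4
    · linarith
    · exact h4
  -- the covered gap
  obtain ⟨a', hcov⟩ := h.exists_cov hp h1
  have h4 : br α β a a = FL α β a := by unfold br; rw [if_pos hac]
  have h5 : br α β a (re W a) = FL α β (re W a) := by unfold br; rw [if_pos hac]
  have h6 : α ≤ a' := by
    have := hcov.2.1
    rw [h4] at this
    unfold FL at this
    nlinarith
  have h7 : α + β - 1 ≤ a' := by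
    by_contra hcon
    exact h.no_gap hp hcov.1 h6 (not_le.1 hcon)
  have h8 := hcov.2.2
  rw [h5] at h8
  unfold FL at h8
  have h9 : 1 - 1 / β < re W a := by
    have h10 : (1 - 1 / β) * β = β - 1 := by field_simp
    by_contra hcon
    have h11 : re W a * β ≤ (1 - 1 / β) * β :=
      mul_le_mul_of_nonneg_right (not_lt.1 hcon) hβ0.le
    rw [h10] at h11
    nlinarith
  linarith

theorem MinSet.upper (hp : Par α β) (h : MinSet α β W) : α < 1 + 1 / β - β := by
  have hβ := hp.hβ
  have hα := hp.hα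
  have hs := hp.hs
  have hβ0 : 0 < β := by linarith
  obtain ⟨hexR, -, hR, -⟩ := h.c_right hp
  have hex1 : ∃ a ∈ E W, a < (1 : ℝ) := by
    obtain ⟨a, ha⟩ := h.ne
    exact ⟨a, ha, lt_of_lt_of_le (re_spec ha).lt (h.inv.sub (re_spec ha).right).2⟩
  obtain ⟨h1, h2, h3⟩ := Lg_spec h.fin hex1
  have hconn := h.conn_Lg h.inv.one hex1
  set a := Lg W 1 with ha
  have hg := re_spec h1
  have hmax : ∀ a' ∈ E W, a' ≤ a := fun a' ha' =>
    h3 a' ha' (lt_of_lt_of_le (re_spec ha').lt (h.inv.sub (re_spec ha').right).2)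
  have hac : cc α β < a := lt_of_lt_of_le hR (hmax _ (Rg_spec h.fin hexR).1)
  have hbc : cc α β < re W a := hac.trans hg.lt
  have hb1 : re W a ≤ 1 := (h.inv.sub hg.right).2
  have hy1 : FR α β 1 = α + β - 1 := by unfold FR; ring
  -- `α + β - 1 ≤ a`
  have hya : α + β - 1 ≤ a := by
    by_contra hcon
    have hcon' : a < α + β - 1 := not_le.1 hcon
    have hby : re W a ≤ α + β - 1 := by
      rcases hg.sep _ (h.inv.y1_mem hp) with h4 | h4
      · linarith
      · exact h4
    have h4 := conn_FR h.inv hp hconn hbc.le hp.c_lt.le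
    rw [hy1] at h4
    have h6 : Conn W (α + β - 1) 1 := hconn.of_mem (by
      rw [uIcc_of_le hb1]; exact ⟨hby, by linarith⟩)
    have h7 : Conn W (FR α β (re W a)) 1 := h4.trans h6
    have h8 : FR α β (re W a) < re W a := by
      unfold FR
      have h9 : re W a < 1 := by
        rcases hb1.lt_or_eq with h10 | h10
        · exact h10
        · exfalso
          obtain ⟨ε, hε, hnhd⟩ := h.inv.nhd
          have h11 : Conn W (cc α β - ε) (cc α β) :=
            conn_of_Icc (by linarith) ((Icc_subset_Icc le_rfl (by linarith)).trans hnhd)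
          have h12 := conn_FL h.inv hp h11 (by linarith) le_rfl
          rw [hp.FL_c] at h12
          have h13 : FL α β (cc α β - ε) < 1 := by
            have := hp.FL_c
            unfold FL at this ⊢
            nlinarith
          rcases hg.sep _ h12.left_mem with h14 | h14
          · exact h12.gap_free h1 h14 h2
          · linarith
      nlinarith
    rcases hg.sep _ h7.left_mem with h9 | h9
    · exact h7.gap_free h1 h9 h2
    · linarith
  obtain ⟨a', hcov⟩ := h.exists_cov hp h1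
  have h4 : br α β a a = FR α β a := by unfold br; rw [if_neg (not_lt.2 hac.le)]
  have h5 : br α β a (re W a) = FR α β (re W a) := by unfold br; rw [if_neg (not_lt.2 hac.le)]
  have h6 : a' < α + β - 1 := by
    have := hcov.2.2
    rw [h5] at this
    unfold FR at this
    nlinarith
  have h7 : a' < α := by
    by_contra hcon
    exact h.no_gap hp hcov.1 (not_lt.1 hcon) h6
  have h8 := hcov.2.1
  rw [h4] at h8
  unfold FR at h8
  have h9 : a < 1 / β := by
    rw [lt_div_iff₀ hβ0]
    nlinarith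
  linarith

end Q78.BetaT
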