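import Pool.Agent.Q78.BetaT.Loop

namespace Q78.BetaT

open Set Filter Topology

variable {α β : ℝ}

theorem T_left (hp : Par α β) (x : Ico (0 : ℝ) 1) (hx : x.1 < cc α β) :
    (T α β x : ℝ) = FL α β x.1 := by
  have hβ := hp.hβ
  have hα := hp.hα
  have hβ0 : 0 < β := by linarith
  have h0 := x.2.1
  have h1 : β * x.1 + α < 1 := by
    unfold cc at hx
    rw [lt_div_iff₀ hβ0] at hx
    linarith
  show Int.fract (β * x.1 + α) = _
  rw [Int.fract_eq_self.2 ⟨by positivity, h1⟩]
  rfl

theorem T_right (hp : Par α β) (x : Ico (0 : ℝ) 1) (hx : cc α β ≤ x.1) :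
    (T α β x : ℝ) = FR α β x.1 := by
  have hβ := hp.hβ
  have hα := hp.hα
  have hs := hp.hs
  have hβ0 : 0 < β := by linarith
  have h0 := x.2.1
  have h2 := x.2.2
  have h1 : 1 ≤ β * x.1 + α := by
    unfold cc at hx
    rw [div_le_iff₀ hβ0] at hx
    linarith
  have h3 : β * x.1 + α < 2 := by nlinarith
  show Int.fract (β * x.1 + α) = FR α β x.1
  rw [Int.fract_eq_iff]
  unfold FR
  refine ⟨by linarith, by linarith, 1, ?_⟩
  push_cast
  ring

section closure

variable {O : Set (Ico (0 : ℝ) 1)}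

/-- closure of a forward invariant set is invariant on the left -/
theorem clos_left (hp : Par α β) (hO : ∀ x ∈ O, T α β x ∈ O) {x : ℝ}
    (hx : x ∈ closure (Subtype.val '' O)) (hxc : x < cc α β) :
    FL α β x ∈ closure (Subtype.val '' O) := by
  rw [mem_closure_iff_seq_limit] at hx ⊢
  obtain ⟨u, hu, hlim⟩ := hx
  have hev : ∀ᶠ n in atTop, u n < cc α β := hlim.eventually (gt_mem_nhds hxc)
  obtain ⟨N, hN⟩ := eventually_atTop.1 hev
  refine ⟨fun n => FL α β (u (n + N)), fun n => ?_, ?_⟩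
  · obtain ⟨y, hy, he⟩ := hu (n + N)
    refine ⟨T α β y, hO y hy, ?_⟩
    have h1 : y.1 < cc α β := by rw [he]; exact hN _ (by omega)
    rw [T_left hp y h1, he]
  · have h2 : Tendsto (fun n => u (n + N)) atTop (𝓝 x) := (tendsto_add_atTop_iff_nat N).2 hlim
    unfold FL
    exact (h2.const_mul β).add_const α

theorem clos_right (hp : Par α β) (hO : ∀ x ∈ O, T α β x ∈ O) {x : ℝ}
    (hx : x ∈ closure (Subtype.val '' O)) (hxc : cc α β < x) :
    FR α β x ∈ closure (Subtype.val '' O) := by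
  rw [mem_closure_iff_seq_limit] at hx ⊢
  obtain ⟨u, hu, hlim⟩ := hx
  have hev : ∀ᶠ n in atTop, cc α β < u n := hlim.eventually (lt_mem_nhds hxc)
  obtain ⟨N, hN⟩ := eventually_atTop.1 hev
  refine ⟨fun n => FR α β (u (n + N)), fun n => ?_, ?_⟩
  · obtain ⟨y, hy, he⟩ := hu (n + N)
    refine ⟨T α β y, hO y hy, ?_⟩
    have h1 : cc α β ≤ y.1 := by rw [he]; exact (hN _ (by omega)).le
    rw [T_right hp y h1, he]
  · have h2 : Tendsto (fun n => u (n + N)) atTop (𝓝 x) := (tendsto_add_atTop_iff_nat N).2 hlim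
    unfold FR
    exact ((h2.const_mul β).add_const α).sub_const 1

theorem clos_sub : closure (Subtype.val '' O) ⊆ Icc (0 : ℝ) 1 := by
  apply closure_minimal _ isClosed_Icc
  rintro x ⟨y, -, rfl⟩
  exact ⟨y.2.1, y.2.2.le⟩

/-- some interval around `c` -/
theorem exists_nhd (hp : Par α β) (hO : ∀ x ∈ O, T α β x ∈ O) {u v : ℝ} (huv : u < v)
    (hsub : Ioo u v ⊆ closure (Subtype.val '' O)) :
    ∃ u' v', u' < cc α β ∧ cc α β < v' ∧ Ioo u' v' ⊆ closure (Subtype.val '' O) := by
  have hβ := hp.hβ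
  have hβ0 : 0 < β := by linarith
  by_contra hcon
  push Not at hcon
  have key : ∀ n : ℕ, ∃ u' v', v' - u' = β ^ n * (v - u) ∧
      Ioo u' v' ⊆ closure (Subtype.val '' O) := by
    intro n
    induction n with
    | zero => exact ⟨u, v, by simp, hsub⟩
    | succ n ih =>
      obtain ⟨u', v', h1, h2⟩ := ih
      have hlt : u' < v' := by
        have : 0 < β ^ n * (v - u) := by
          have : 0 < v - u := by linarith
          positivity
        linarith
      rcases le_or_gt (cc α β) u' with h3 | h3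
      · refine ⟨FR α β u', FR α β v', ?_, ?_⟩
        · unfold FR
          rw [pow_succ]
          linarith [congrArg (fun t => β * t) h1]
        · intro z hz
          have h4 : FR α β ((z + 1 - α) / β) = z := by unfold FR; field_simp; ring
          rw [← h4]
          unfold FR at hz
          have h5 : u' < (z + 1 - α) / β := by rw [lt_div_iff₀ hβ0]; linarith [hz.1]
          have h6 : (z + 1 - α) / β < v' := by rw [div_lt_iff₀ hβ0]; linarith [hz.2]
          exact clos_right hp hO (h2 ⟨h5, h6⟩) (h3.trans_lt h5)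
      · have h3' : v' ≤ cc α β := by
          by_contra h7
          exact hcon u' v' h3 (not_le.1 h7) h2
        refine ⟨FL α β u', FL α β v', ?_, ?_⟩
        · unfold FL
          rw [pow_succ]
          linarith [congrArg (fun t => β * t) h1]
        · intro z hz
          have h4 : FL α β ((z - α) / β) = z := by unfold FL; field_simp; ring
          rw [← h4]
          unfold FL at hz
          have h5 : u' < (z - α) / β := by rw [lt_div_iff₀ hβ0]; linarith [hz.1]
          have h6 : (z - α) / β < v' := by rw [div_lt_iff₀ hβ0]; linarith [hz.2]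
          exact clos_left hp hO (h2 ⟨h5, h6⟩) (h6.trans_le h3')
  obtain ⟨n, hn⟩ := pow_unbounded_of_one_lt (1 / (v - u)) hβ
  obtain ⟨u', v', h1, h2⟩ := key n
  have hvu : 0 < v - u := by linarith
  rw [div_lt_iff₀ hvu] at hn
  have hlt : u' < v' := by linarith
  have h3 : Icc u' v' ⊆ closure (Subtype.val '' O) := by
    rw [← closure_Ioo hlt.ne]
    exact closure_minimal h2 isClosed_closure
  have h4 := clos_sub (h3 (left_mem_Icc.2 hlt.le))
  have h5 := clos_sub (h3 (right_mem_Icc.2 hlt.le))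
  linarith [h4.1, h5.2]

theorem clos_inv (hp : Par α β) (hO : ∀ x ∈ O, T α β x ∈ O) {u v : ℝ} (huv : u < v)
    (hsub : Ioo u v ⊆ closure (Subtype.val '' O)) :
    Inv α β (closure (Subtype.val '' O)) := by
  have hβ := hp.hβ
  have hβ0 : 0 < β := by linarith
  obtain ⟨u', v', h1, h2, h3⟩ := exists_nhd hp hO huv hsub
  set S := closure (Subtype.val '' O) with hS
  have hcl : IsClosed S := isClosed_closure
  set ε := min (cc α β - u') (v' - cc α β) / 2 with hε
  have hε0 : 0 < ε := by
    have : 0 < min (cc α β - u') (v' - cc α β) := lt_min (by linarith) (by linarith)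
    positivity
  have hε1 : ε < cc α β - u' := by
    have : min (cc α β - u') (v' - cc α β) ≤ cc α β - u' := min_le_left _ _
    linarith
  have hε2 : ε < v' - cc α β := by
    have : min (cc α β - u') (v' - cc α β) ≤ v' - cc α β := min_le_right _ _
    linarith
  have hnhd : Icc (cc α β - ε) (cc α β + ε) ⊆ S := fun x hx =>
    h3 ⟨by linarith [hx.1], by linarith [hx.2]⟩
  have hone : (1 : ℝ) ∈ S := by
    have hlim : Tendsto (fun n : ℕ => FL α β (cc α β - ε * (1 / ((n : ℝ) + 1)))) atTop (𝓝 1) := by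
      have h4 : Tendsto (fun n : ℕ => (1 : ℝ) / ((n : ℝ) + 1)) atTop (𝓝 0) :=
        tendsto_one_div_add_atTop_nhds_zero_nat
      have h5 := ((((h4.const_mul ε).const_sub (cc α β)).const_mul β).add_const α)
      have h6 : β * (cc α β - ε * 0) + α = 1 := by
        have := hp.FL_c
        unfold FL at this
        linarith
      rw [h6] at h5
      exact h5
    refine hcl.mem_of_tendsto hlim (Eventually.of_forall fun n => ?_)
    have h7 : (0 : ℝ) < 1 / ((n : ℝ) + 1) := by positivity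
    have h8 : 1 / ((n : ℝ) + 1) ≤ 1 := by
      rw [div_le_one (by positivity)]
      linarith [Nat.cast_nonneg (α := ℝ) n]
    apply clos_left hp hO
    · apply hnhd
      constructor <;> nlinarith
    · nlinarith
  have hzero : (0 : ℝ) ∈ S := by
    have hlim : Tendsto (fun n : ℕ => FR α β (cc α β + ε * (1 / ((n : ℝ) + 1)))) atTop (𝓝 0) := by
      have h4 : Tendsto (fun n : ℕ => (1 : ℝ) / ((n : ℝ) + 1)) atTop (𝓝 0) :=
        tendsto_one_div_add_atTop_nhds_zero_nat
      have h5 := ((((h4.const_mul ε).const_add (cc α β)).const_mul β).add_const α).sub_const 1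
      have h6 : β * (cc α β + ε * 0) + α - 1 = 0 := by
        have := hp.FR_c
        unfold FR at this
        linarith
      rw [h6] at h5
      exact h5
    refine hcl.mem_of_tendsto hlim (Eventually.of_forall fun n => ?_)
    have h7 : (0 : ℝ) < 1 / ((n : ℝ) + 1) := by positivity
    have h8 : 1 / ((n : ℝ) + 1) ≤ 1 := by
      rw [div_le_one (by positivity)]
      linarith [Nat.cast_nonneg (α := ℝ) n]
    apply clos_right hp hO
    · apply hnhd
      constructor <;> nlinarith
    · nlinarith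
  refine ⟨hcl, clos_sub, hzero, hone, ⟨ε, hε0, hnhd⟩, ?_, ?_⟩
  · intro x hx hxc
    rcases hxc.lt_or_eq with h4 | h4
    · exact clos_left hp hO hx h4
    · rw [h4, hp.FL_c]; exact hone
  · intro x hx hxc
    rcases hxc.lt_or_eq with h4 | h4
    · exact clos_right hp hO hx h4
    · rw [← h4, hp.FR_c]; exact hzero

end closure

/-- an open subset of `[0,1)` contains an interval -/
theorem exists_Ioo {U : Set (Ico (0 : ℝ) 1)} (hU : IsOpen U) (hne : U.Nonempty) :
    ∃ u v : ℝ, u < v ∧ 0 ≤ u ∧ v ≤ 1 ∧ ∀ x, x ∈ Ioo u v → ∀ h' : x ∈ Ico (0 : ℝ) 1,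
      (⟨x, h'⟩ : Ico (0 : ℝ) 1) ∈ U := by
  obtain ⟨x, hx⟩ := hne
  obtain ⟨ε, hε, hball⟩ := Metric.isOpen_iff.1 hU x hx
  refine ⟨x.1, min (x.1 + ε) 1, lt_min (by linarith) x.2.2, x.2.1, min_le_right _ _,
    fun y hy h' => ?_⟩
  apply hball
  rw [Metric.mem_ball, Subtype.dist_eq, Real.dist_eq, abs_lt]
  have h1 := hy.1
  have h2 : y < x.1 + ε := lt_of_lt_of_le hy.2 (min_le_left _ _)
  constructor
  · show -ε < y - x.1
    linarith
  · show y - x.1 < ε
    linarith

/-- If `T_{α,β}` is not transitive then `1 - 1/β < α < 1 + 1/β - β`. -/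
theorem of_not_transitive (hp : Par α β) (h : ¬ TopTransitive (T α β)) :
    1 - 1 / β < α ∧ α < 1 + 1 / β - β := by
  unfold TopTransitive at h
  push Not at h
  obtain ⟨U, V, hU, hV, hUne, hVne, hUV⟩ := h
  set O : Set (Ico (0 : ℝ) 1) := ⋃ n : ℕ, (T α β)^[n] '' U with hO
  have hOinv : ∀ x ∈ O, T α β x ∈ O := by
    intro x hx
    rw [hO, mem_iUnion] at hx ⊢
    obtain ⟨n, y, hy, rfl⟩ := hx
    exact ⟨n + 1, y, hy, Function.iterate_succ_apply' _ _ _⟩
  obtain ⟨u, v, huv, hu0, hv1, hsubU⟩ := exists_Ioo hU hUne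
  have hsub : Ioo u v ⊆ closure (Subtype.val '' O) := by
    intro x hx
    apply subset_closure
    have h' : x ∈ Ico (0 : ℝ) 1 := ⟨hu0.trans hx.1.le, lt_of_lt_of_le hx.2 hv1⟩
    refine ⟨⟨x, h'⟩, ?_, rfl⟩
    rw [hO, mem_iUnion]
    exact ⟨0, ⟨x, h'⟩, hsubU x hx h', rfl⟩
  have hinv := clos_inv hp hOinv huv hsub
  have hne : ∃ x ∈ Icc (0 : ℝ) 1, x ∉ closure (Subtype.val '' O) := by
    obtain ⟨u', v', huv', hu0', hv1', hsubV⟩ := exists_Ioo hV hVne
    refine ⟨(u' + v') / 2, ⟨by linarith, by linarith⟩, ?_⟩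
    intro hmem
    rw [mem_closure_iff] at hmem
    obtain ⟨z, hz1, y, hy, rfl⟩ := hmem (Ioo u' v') isOpen_Ioo ⟨by linarith, by linarith⟩
    have hyV : y ∈ V := hsubV y.1 hz1 y.2
    rw [hO, mem_iUnion] at hy
    obtain ⟨n, hn⟩ := hy
    have h9 : y ∈ (∅ : Set (Ico (0 : ℝ) 1)) := by
      rw [← hUV n]
      exact ⟨hn, hyV⟩
    exact h9
  obtain ⟨W, hW⟩ := exists_min hp hinv hne
  exact ⟨hW.lower hp, hW.upper hp⟩

end Q78.BetaT
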